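import Mathlib

set_option autoImplicit false

/-!
# Right-angled reflection systems

Abstract form of the action of `W ⋊ A` (`W` a right-angled Coxeter group, `A` a finite group of
diagram automorphisms) on the vertices of the Davis complex of `W`.
-/

namespace Pool.Agent.H989R3.VR

variable {Γ V : Type} [Group Γ] [MulAction Γ V]

/-- `r` separates `v` from `w` -/
def Sep (side : Γ → V → Prop) (r : Γ) (v w : V) : Prop := ¬ (side r v ↔ side r w)

/-- `Γ` acts on a graph `(V, adj)` with a conjugation invariant set `R` of involutions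
(reflections); each reflection `r` divides `V` into two halfspaces `side r`, its complement, which
it exchanges.  -/
structure Pre (adj : V → V → Prop) (R : Set Γ) (side : Γ → V → Prop) : Prop where
  adj_smul : ∀ (g : Γ) (v w : V), adj v w → adj (g • v) (g • w)
  invol : ∀ r ∈ R, r * r = 1
  conj : ∀ r ∈ R, ∀ g : Γ, g * r * g⁻¹ ∈ R
  sep_conj : ∀ r ∈ R, ∀ (g : Γ) (v w : V),
    Sep side (g * r * g⁻¹) (g • v) (g • w) ↔ Sep side r v w
  swap : ∀ r ∈ R, ∀ v : V, Sep side r v (r • v)
  edge : ∀ v w, adj v w → ∃ r ∈ R, Sep side r v w ∧ r • v = w ∧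
    ∀ r' ∈ R, Sep side r' v w → r' = r
  finite : ∀ v w, {r | r ∈ R ∧ Sep side r v w}.Finite
  geod : ∀ v w, v ≠ w → ∃ x, adj v x ∧ ∃ r ∈ R, Sep side r v x ∧ Sep side r v w

/-- right-angled reflection systems: crossing reflections commute, and the group generated by the
reflections acts freely -/
structure IsRightAngled (adj : V → V → Prop) (R : Set Γ) (side : Γ → V → Prop) : Prop
    extends Pre adj R side where
  cross : ∀ r ∈ R, ∀ t ∈ R, ∀ a b c d : V, Sep side r a b → ¬ Sep side t a b →
    ¬ Sep side r a c → Sep side t a c → Sep side r a d → Sep side t a d → r * t = t * r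
  free : ∀ g ∈ Subgroup.closure R, ∀ v : V, g • v = v → g = 1

/-- convex sets of vertices: with two vertices they contain the first step of every geodesic
joining them. -/
def IsConvex (adj : V → V → Prop) (R : Set Γ) (side : Γ → V → Prop) (C : Set V) : Prop :=
  ∀ c ∈ C, ∀ c' ∈ C, ∀ x, adj c x → (∃ r ∈ R, Sep side r c x ∧ Sep side r c c') → x ∈ C

/-- `H` is a virtual retract of `G` (both subgroups of an ambient group). -/
def IsVirtualRetract (H G : Subgroup Γ) : Prop :=
  ∃ K : Subgroup Γ, K ≤ G ∧ K.relIndex G ≠ 0 ∧ ∃ hHK : H ≤ K,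
    ∃ ρ : K →* H, ∀ x : H, ρ ⟨x.1, hHK x.2⟩ = x

end Pool.Agent.H989R3.VR
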