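import Mathlib
import Pool.Agent.H989R3.VR.Defs

set_option autoImplicit false

namespace Pool.Agent.H989R3.VR

variable {Γ V : Type} [Group Γ] [MulAction Γ V]
  {adj : V → V → Prop} {R : Set Γ} {side : Γ → V → Prop}

theorem Sep.symm {r : Γ} {v w : V} (h : Sep side r v w) : Sep side r w v := by
  unfold Sep at *
  tauto

theorem sep_comm {r : Γ} {v w : V} : Sep side r v w ↔ Sep side r w v := ⟨Sep.symm, Sep.symm⟩

theorem not_sep_self {r : Γ} {v : V} : ¬ Sep side r v v := by
  unfold Sep
  tauto

theorem sep_of {r : Γ} {a b c : V} (h1 : ¬ Sep side r a b) : Sep side r a c ↔ Sep side r b c := by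
  unfold Sep at *
  tauto

theorem sep_of' {r : Γ} {a b c : V} (h1 : Sep side r a b) : Sep side r a c ↔ ¬ Sep side r b c := by
  unfold Sep at *
  tauto

/-- number of separating reflections -/
noncomputable def mu (R : Set Γ) (side : Γ → V → Prop) (v w : V) : ℕ :=
  {r | r ∈ R ∧ Sep side r v w}.ncard

theorem mu_lt (h : Pre adj R side) {v w x : V} (hx : adj v x) {r : Γ} (hr : r ∈ R)
    (h1 : Sep side r v x) (h2 : Sep side r v w) : mu R side x w < mu R side v w := by
  obtain ⟨r0, hr0, _, _, hu⟩ := h.edge v x hx
  have he : r = r0 := hu r hr h1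
  subst he
  apply Set.ncard_lt_ncard _ (h.finite v w)
  refine ⟨?_, ?_⟩
  · rintro t ⟨ht, hs⟩
    refine ⟨ht, ?_⟩
    by_cases htr : Sep side t v x
    · have : t = r := hu t ht htr
      subst this
      exact h2
    · exact (sep_of htr).mpr hs
  · intro hle
    have h3 := hle ⟨hr, h2⟩
    have h4 := (sep_of' h1).mp h2
    exact h4 h3.2

theorem mu_le (h : Pre adj R side) {v w x : V} (hx : adj v x) :
    mu R side v w ≤ mu R side x w + 1 := by
  obtain ⟨r0, hr0, _, _, hu⟩ := h.edge v x hx
  have hsub : {r | r ∈ R ∧ Sep side r v w} ⊆ insert r0 {r | r ∈ R ∧ Sep side r x w} := by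
    rintro t ⟨ht, hs⟩
    by_cases htr : Sep side t v x
    · left
      exact hu t ht htr
    · right
      exact ⟨ht, (sep_of htr).mp hs⟩
  calc mu R side v w ≤ (insert r0 {r | r ∈ R ∧ Sep side r x w}).ncard :=
        Set.ncard_le_ncard hsub ((h.finite x w).insert _)
    _ ≤ mu R side x w + 1 := Set.ncard_insert_le _ _

theorem mu_smul (h : Pre adj R side) (g : Γ) (v w : V) :
    mu R side (g • v) (g • w) ≤ mu R side v w := by
  unfold mu
  have hsub : {r | r ∈ R ∧ Sep side r (g • v) (g • w)} ⊆
      (fun r => g * r * g⁻¹) '' {r | r ∈ R ∧ Sep side r v w} := by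
    rintro t ⟨ht, hs⟩
    refine ⟨g⁻¹ * t * g, ⟨?_, ?_⟩, by group⟩
    · have := h.conj t ht g⁻¹
      rwa [inv_inv] at this
    · have h1 := h.sep_conj (g⁻¹ * t * g) (by
        have := h.conj t ht g⁻¹
        rwa [inv_inv] at this) g v w
      have h2 : g * (g⁻¹ * t * g) * g⁻¹ = t := by group
      rw [h2] at h1
      exact h1.mp hs
  calc _ ≤ _ := Set.ncard_le_ncard hsub ((h.finite v w).image _)
    _ ≤ _ := Set.ncard_image_le (h.finite v w)

theorem mu_descent (h : Pre adj R side) (n : ℕ) : ∀ (a v : V) (r : Γ), r ∈ R →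
    mu R side a v ≤ n → Sep side r a v → mu R side a (r • v) < mu R side a v := by
  induction n with
  | zero =>
    intro a v r hr hn hs
    exfalso
    have h1 : mu R side a v = 0 := by omega
    unfold mu at h1
    rw [Set.ncard_eq_zero (h.finite a v)] at h1
    have : r ∈ ({r | r ∈ R ∧ Sep side r a v} : Set Γ) := ⟨hr, hs⟩
    rw [h1] at this
    exact this
  | succ n ih =>
    intro a v r hr hn hs
    have hav : a ≠ v := by
      rintro rfl
      exact not_sep_self hs
    obtain ⟨x, hx, t, ht, ht1, ht2⟩ := h.geod a v hav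
    have h1 := mu_lt h hx ht ht1 ht2
    obtain ⟨r0, hr0, _, hr02, hu⟩ := h.edge a x hx
    have he : t = r0 := hu t ht ht1
    by_cases htr : t = r
    · subst htr
      subst he
      have h2 : mu R side a (t • v) ≤ mu R side x v := by
        have h3 := mu_smul h t x v
        have h4 : t • x = a := by
          rw [← hr02, smul_smul, h.invol t ht, one_smul]
        rw [h4] at h3
        exact h3
      omega
    · have h2 : ¬ Sep side r a x := by
        intro h3
        exact htr (he.trans (hu r hr h3).symm)
      have h3 := ih x v r hr (by omega) ((sep_of h2).mp hs)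
      have h4 := mu_le (w := r • v) h hx
      omega

/-- an edge of the wall `r` between two vertices separated by `r`, on the side of `t` -/
theorem exists_edge (h : Pre adj R side) {r t : Γ} (n : ℕ) : ∀ (a c : V),
    mu R side a c ≤ n → Sep side r a c → ¬ Sep side t a c → r ∈ R → t ∈ R →
      ∃ x y, adj x y ∧ Sep side r x y ∧ ¬ Sep side r a x ∧ ¬ Sep side t a x := by
  induction n with
  | zero =>
    intro a c hn hs _ hr _
    exfalso
    have h1 : mu R side a c = 0 := by omega
    unfold mu at h1
    rw [Set.ncard_eq_zero (h.finite a c)] at h1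
    have : r ∈ ({r | r ∈ R ∧ Sep side r a c} : Set Γ) := ⟨hr, hs⟩
    rw [h1] at this
    exact this
  | succ n ih =>
    intro a c hn hs ht hr htR
    have hac : a ≠ c := by
      rintro rfl
      exact not_sep_self hs
    obtain ⟨x, hx, q, hq, hq1, hq2⟩ := h.geod a c hac
    obtain ⟨r0, _, _, _, hu⟩ := h.edge a x hx
    by_cases hqr : q = r
    · subst hqr
      exact ⟨a, x, hx, hq1, not_sep_self, not_sep_self⟩
    · have h1 := mu_lt h hx hq hq1 hq2
      have h2 : ¬ Sep side r a x := by
        intro h3
        exact hqr ((hu q hq hq1).trans (hu r hr h3).symm)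
      have h3 : ¬ Sep side t a x := by
        intro h4
        have h5 : q = t := (hu q hq hq1).trans (hu t htR h4).symm
        subst h5
        exact ht hq2
      obtain ⟨y, z, hyz, h4, h5, h6⟩ := ih x c (by omega) ((sep_of h2).mp hs)
        (fun h' => ht ((sep_of h3).mpr h')) hr htR
      exact ⟨y, z, hyz, h4, fun h' => h5 ((sep_of h2).mp h'), fun h' => h6 ((sep_of h3).mp h')⟩

/-- the local condition (quadrangles) implies that crossing reflections commute -/
theorem cross_of_quad (h : Pre adj R side)
    (hq : ∀ v x y w, adj v x → adj v y → ∀ r ∈ R, ∀ q ∈ R, r ≠ q → Sep side r v x →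
      Sep side q v y → Sep side r v w → Sep side q v w → r * q = q * r) :
    ∀ r ∈ R, ∀ t ∈ R, ∀ a b c d : V, Sep side r a b → ¬ Sep side t a b →
      ¬ Sep side r a c → Sep side t a c → Sep side r a d → Sep side t a d → r * t = t * r := by
  intro r hr t ht a b c d h1 h2 h3 h4 h5 h6
  have hrt : r ≠ t := by
    rintro rfl
    exact h3 h4
  -- edges of the wall of `r` on both sides of `t`
  obtain ⟨x, x', hx, hx1, hx2, hx3⟩ := exists_edge h _ a b le_rfl h1 h2 hr ht
  have hcd1 : Sep side r c d := (sep_of h3).mp h5
  have hcd2 : ¬ Sep side t c d := (sep_of' h4).mp h6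
  obtain ⟨y, y', hy, hy1, hy2, hy3⟩ := exists_edge h _ c d le_rfl hcd1 hcd2 hr ht
  have hty : Sep side t a y := ((sep_of hy3).mp h4.symm).symm
  have hry : ¬ Sep side r a y := fun h' => hy2 ((sep_of h3).mp h')
  have key : ∀ n : ℕ, ∀ x x' : V, mu R side x y ≤ n → adj x x' → Sep side r x x' →
      ¬ Sep side r a x → ¬ Sep side t a x → r * t = t * r := by
    intro n
    induction n with
    | zero =>
      intro x x' hn hx hx1 hx2 hx3
      exfalso
      have h7 : mu R side x y = 0 := by omega
      unfold mu at h7
      rw [Set.ncard_eq_zero (h.finite x y)] at h7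
      have : t ∈ ({r | r ∈ R ∧ Sep side r x y} : Set Γ) := ⟨ht, (sep_of hx3).mp hty⟩
      rw [h7] at this
      exact this
    | succ n ih =>
      intro x x' hn hx hx1 hx2 hx3
      have hxy : x ≠ y := by
        rintro rfl
        exact hx3 hty
      obtain ⟨z, hz, q, hqR, hq1, hq2⟩ := h.geod x y hxy
      obtain ⟨q0, _, _, hqz, hu⟩ := h.edge x z hz
      obtain ⟨r1, _, _, hr1x, hur⟩ := h.edge x x' hx
      have her : r = r1 := hur r hr hx1
      subst her
      have heq : q = q0 := hu q hqR hq1
      subst heq
      have hrxy : ¬ Sep side r x y := fun h' => hry ((sep_of hx2).mpr h')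
      have hqr : r ≠ q := by
        rintro rfl
        exact hrxy hq2
      obtain ⟨r2, _, _, hr2y, huy⟩ := h.edge y y' hy
      have her2 : r = r2 := huy r hr hy1
      subst her2
      have hqy : ¬ Sep side q y y' := by
        intro h7
        exact hqr (huy q hqR h7).symm
      have hqw : Sep side q x y' := ((sep_of hqy).mp hq2.symm).symm
      have hrw : Sep side r x y' := (sep_of hrxy).mpr hy1
      have hcomm := hq x x' z y' hx hz r hr q hqR hqr hx1 hq1 hrw hqw
      by_cases hqt : q = t
      · rw [← hqt]
        exact hcomm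
      · have h7 := mu_lt h hz hqR hq1 hq2
        refine ih z (q • x') (by omega) ?_ ?_ ?_ ?_
        · rw [← hqz]
          exact h.adj_smul q x x' hx
        · have h8 := h.sep_conj r hr q x x'
          have h9 : q * r * q⁻¹ = r := by rw [← hcomm]; group
          rw [h9, hqz] at h8
          exact h8.mpr hx1
        · intro h8
          have h9 : Sep side r x z := (sep_of hx2).mp h8
          exact hqr (hu r hr h9)
        · intro h8
          have h9 : Sep side t x z := (sep_of hx3).mp h8
          exact hqt (hu t ht h9).symm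
  exact key _ x x' le_rfl hx hx1 hx2 hx3

end Pool.Agent.H989R3.VR
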