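import Mathlib

set_option autoImplicit false

/-!
# Right-angled Coxeter groups: definitions used in the statement
-/

namespace Pool.Agent.H989R3.VR

variable {S : Type}

/-- the relators of the right-angled Coxeter group of a graph -/
def racgRels (E : SimpleGraph S) : Set (FreeGroup S) :=
  {w | (∃ i, w = FreeGroup.of i * FreeGroup.of i) ∨
    ∃ i j, E.Adj i j ∧
      w = FreeGroup.of i * FreeGroup.of j * FreeGroup.of i * FreeGroup.of j}

/-- The right-angled Coxeter group of the graph `E`: generators the vertices, relations
`i^2 = 1` and `(i j)^2 = 1` for adjacent `i`, `j`. -/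
abbrev RACG (E : SimpleGraph S) : Type := PresentedGroup (racgRels E)

/-- the generators -/
abbrev gen (E : SimpleGraph S) (i : S) : RACG E := PresentedGroup.of i

/-- products of generators -/
def wprod (E : SimpleGraph S) (l : List S) : RACG E := (l.map (gen E)).prod

/-- word length -/
noncomputable def wlen {E : SimpleGraph S} (w : RACG E) : ℕ :=
  sInf {n | ∃ l : List S, l.length = n ∧ wprod E l = w}

/-- A set of vertices of the Cayley graph is (geodesically) convex if it contains all vertices on
geodesics between its vertices. -/
def GeodConvex {E : SimpleGraph S} (C : Set (RACG E)) : Prop :=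
  ∀ c ∈ C, ∀ c' ∈ C, ∀ v, wlen (c⁻¹ * v) + wlen (v⁻¹ * c') ≤ wlen (c⁻¹ * c') → v ∈ C

end Pool.Agent.H989R3.VR
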