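import Mathlib
import Pool.Agent.H989R3.VR.RDefs

set_option autoImplicit false

/-!
# Right-angled Coxeter groups
-/

namespace Pool.Agent.H989R3.VR

variable {S : Type}

variable {E : SimpleGraph S}

theorem gen_mul_gen (i : S) : gen E i * gen E i = 1 := by
  have h : (FreeGroup.of i * FreeGroup.of i : FreeGroup S) ∈ racgRels E := Or.inl ⟨i, rfl⟩
  have h1 := PresentedGroup.one_of_mem h
  rwa [map_mul] at h1

theorem gen_inv (i : S) : (gen E i)⁻¹ = gen E i := inv_eq_of_mul_eq_one_left (gen_mul_gen i)

theorem gen_comm {i j : S} (hij : E.Adj i j) : gen E i * gen E j = gen E j * gen E i := by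
  have h : (FreeGroup.of i * FreeGroup.of j * FreeGroup.of i * FreeGroup.of j : FreeGroup S) ∈
      racgRels E := Or.inr ⟨i, j, hij, rfl⟩
  have h1 := PresentedGroup.one_of_mem h
  rw [map_mul, map_mul, map_mul] at h1
  have h2 : gen E i * gen E j * gen E i * gen E j = 1 := h1
  have h3 : (gen E i * gen E j) * (gen E i * gen E j) = 1 := by
    rw [← mul_assoc]
    exact h2
  have h4 : gen E i * gen E j = (gen E i * gen E j)⁻¹ := eq_inv_of_mul_eq_one_left h3
  rw [h4, mul_inv_rev, gen_inv, gen_inv]

/-- lifting property -/
theorem exists_lift {G : Type} [Group G] (f : S → G) (h1 : ∀ i, f i * f i = 1)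
    (h2 : ∀ i j, E.Adj i j → f i * f j = f j * f i) :
    ∃ F : RACG E →* G, ∀ i, F (gen E i) = f i := by
  have h : ∀ r ∈ racgRels E, FreeGroup.lift f r = 1 := by
    rintro r (⟨i, rfl⟩ | ⟨i, j, hij, rfl⟩)
    · simp [h1]
    · simp only [map_mul, FreeGroup.lift_apply_of]
      calc f i * f j * f i * f j = f i * (f j * f i) * f j := by group
        _ = f i * (f i * f j) * f j := by rw [h2 i j hij]
        _ = (f i * f i) * (f j * f j) := by group
        _ = 1 := by rw [h1, h1, one_mul]
  exact ⟨PresentedGroup.toGroup h, fun i => PresentedGroup.toGroup.of h⟩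

theorem wprod_cons (i : S) (l : List S) : wprod E (i :: l) = gen E i * wprod E l := by
  simp [wprod]

theorem wprod_append (l l' : List S) : wprod E (l ++ l') = wprod E l * wprod E l' := by
  simp [wprod]

theorem wprod_singleton (i : S) : wprod E [i] = gen E i := by simp [wprod]

theorem wprod_reverse (l : List S) : wprod E l.reverse = (wprod E l)⁻¹ := by
  induction l with
  | nil => simp [wprod]
  | cons i l ih =>
    rw [List.reverse_cons, wprod_append, ih, wprod_singleton, wprod_cons i l, mul_inv_rev, gen_inv]

theorem exists_word (w : RACG E) : ∃ l : List S, wprod E l = w := by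
  have hw : w ∈ Subgroup.closure (Set.range (gen E)) := by
    rw [PresentedGroup.closure_range_of]
    trivial
  induction hw using Subgroup.closure_induction with
  | mem x hx =>
    obtain ⟨i, rfl⟩ := hx
    exact ⟨[i], by simp [wprod]⟩
  | one => exact ⟨[], by simp [wprod]⟩
  | mul x y _ _ hx hy =>
    obtain ⟨l, rfl⟩ := hx
    obtain ⟨l', rfl⟩ := hy
    exact ⟨l ++ l', wprod_append l l'⟩
  | inv x _ hx =>
    obtain ⟨l, rfl⟩ := hx
    exact ⟨l.reverse, wprod_reverse l⟩

theorem wlen_spec (w : RACG E) : ∃ l : List S, l.length = wlen w ∧ wprod E l = w := by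
  have hne : {n | ∃ l : List S, l.length = n ∧ wprod E l = w}.Nonempty := by
    obtain ⟨l, hl⟩ := exists_word w
    exact ⟨_, l, rfl, hl⟩
  exact Nat.sInf_mem hne

theorem wlen_le (l : List S) : wlen (wprod E l) ≤ l.length :=
  Nat.sInf_le ⟨l, rfl, rfl⟩

/-- the sign cocycle -/
theorem exists_cocycle (E : SimpleGraph S) : ∃ n : RACG E → RACG E → ZMod 2,
    (∀ t, n 1 t = 0) ∧ (∀ i t, (t = gen E i → n (gen E i) t = 1) ∧
      (t ≠ gen E i → n (gen E i) t = 0)) ∧
    ∀ a b t, n (a * b) t = n b t + n a (b * t * b⁻¹) := by
  classical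
  let f : S → Equiv.Perm (RACG E × ZMod 2) := fun i =>
    { toFun := fun x => (gen E i * x.1 * (gen E i)⁻¹, x.2 + if x.1 = gen E i then 1 else 0)
      invFun := fun x => (gen E i * x.1 * (gen E i)⁻¹, x.2 + if x.1 = gen E i then 1 else 0)
      left_inv := by
        rintro ⟨t, e⟩
        have h1 : gen E i * (gen E i * t * (gen E i)⁻¹) * (gen E i)⁻¹ = t := by
          rw [gen_inv]
          calc gen E i * (gen E i * t * gen E i) * gen E i =
              (gen E i * gen E i) * t * (gen E i * gen E i) := by group
            _ = t := by rw [gen_mul_gen]; group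
        have h2 : (gen E i * t * (gen E i)⁻¹ = gen E i) ↔ t = gen E i := by
          constructor
          · intro h
            have h3 : gen E i * t = gen E i * gen E i := mul_inv_eq_iff_eq_mul.mp h
            exact mul_left_cancel h3
          · rintro rfl
            group
        simp only [h1, h2]
        split_ifs
        · ext <;> simp [add_assoc]
          rfl
        · simp
      right_inv := by
        rintro ⟨t, e⟩
        have h1 : gen E i * (gen E i * t * (gen E i)⁻¹) * (gen E i)⁻¹ = t := by
          rw [gen_inv]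
          calc gen E i * (gen E i * t * gen E i) * gen E i =
              (gen E i * gen E i) * t * (gen E i * gen E i) := by group
            _ = t := by rw [gen_mul_gen]; group
        have h2 : (gen E i * t * (gen E i)⁻¹ = gen E i) ↔ t = gen E i := by
          constructor
          · intro h
            have h3 : gen E i * t = gen E i * gen E i := mul_inv_eq_iff_eq_mul.mp h
            exact mul_left_cancel h3
          · rintro rfl
            group
        simp only [h1, h2]
        split_ifs
        · ext <;> simp [add_assoc]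
          rfl
        · simp }
  have hf : ∀ i x, f i x = (gen E i * x.1 * (gen E i)⁻¹,
      x.2 + if x.1 = gen E i then 1 else 0) := fun i x => rfl
  obtain ⟨F, hF⟩ := exists_lift (E := E) f (by
    intro i
    apply Equiv.ext
    intro x
    rw [Equiv.Perm.mul_apply, Equiv.Perm.one_apply]
    exact (f i).left_inv x) (by
    intro i j hij
    apply Equiv.ext
    rintro ⟨t, e⟩
    rw [Equiv.Perm.mul_apply, Equiv.Perm.mul_apply, hf, hf, hf, hf]
    have hc := gen_comm (E := E) hij
    have h1 : (gen E j * t * (gen E j)⁻¹ = gen E i) ↔ t = gen E i := by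
      constructor
      · intro h
        have h3 : gen E j * t = gen E i * gen E j := mul_inv_eq_iff_eq_mul.mp h
        rw [hc] at h3
        exact mul_left_cancel h3
      · rintro rfl
        rw [← hc]
        group
    have h2 : (gen E i * t * (gen E i)⁻¹ = gen E j) ↔ t = gen E j := by
      constructor
      · intro h
        have h3 : gen E i * t = gen E j * gen E i := mul_inv_eq_iff_eq_mul.mp h
        rw [← hc] at h3
        exact mul_left_cancel h3
      · rintro rfl
        rw [hc]
        group
    simp only [h1, h2]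
    refine Prod.ext ?_ ?_
    · change gen E i * (gen E j * t * (gen E j)⁻¹) * (gen E i)⁻¹ =
        gen E j * (gen E i * t * (gen E i)⁻¹) * (gen E j)⁻¹
      calc gen E i * (gen E j * t * (gen E j)⁻¹) * (gen E i)⁻¹ =
          (gen E i * gen E j) * t * (gen E i * gen E j)⁻¹ := by group
        _ = (gen E j * gen E i) * t * (gen E j * gen E i)⁻¹ := by rw [hc]
        _ = _ := by group
    · change e + _ + _ = e + _ + _
      ring)
  have hF1 : ∀ w x, (F w x).1 = w * x.1 * w⁻¹ := by
    intro w
    obtain ⟨l, rfl⟩ := exists_word w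
    induction l with
    | nil => intro x; simp [wprod]
    | cons i l ih =>
      intro x
      rw [wprod_cons, map_mul, Equiv.Perm.mul_apply, hF, hf]
      change gen E i * (F (wprod E l) x).1 * (gen E i)⁻¹ = _
      rw [ih]
      group
  have hF2 : ∀ w t e, (F w (t, e)).2 = e + (F w (t, 0)).2 := by
    intro w
    obtain ⟨l, rfl⟩ := exists_word w
    induction l with
    | nil => intro t e; simp [wprod]
    | cons i l ih =>
      intro t e
      rw [wprod_cons, map_mul, Equiv.Perm.mul_apply, Equiv.Perm.mul_apply, hF, hf, hf]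
      change (F (wprod E l) (t, e)).2 + (if (F (wprod E l) (t, e)).1 = gen E i then 1 else 0) =
        e + ((F (wprod E l) (t, 0)).2 + (if (F (wprod E l) (t, 0)).1 = gen E i then 1 else 0))
      rw [ih, hF1, hF1]
      ring
  refine ⟨fun w t => (F w (t, 0)).2, ?_, ?_, ?_⟩
  · intro t
    simp
  · intro i t
    change (t = gen E i → (F (gen E i) (t, 0)).2 = 1) ∧ (t ≠ gen E i → (F (gen E i) (t, 0)).2 = 0)
    rw [hF, hf]
    change (t = gen E i → 0 + (if t = gen E i then 1 else 0) = (1 : ZMod 2)) ∧
      (t ≠ gen E i → 0 + (if t = gen E i then 1 else 0) = (0 : ZMod 2))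
    constructor
    · intro h
      rw [if_pos h, zero_add]
    · intro h
      rw [if_neg h, zero_add]
  · intro a b t
    change (F (a * b) (t, 0)).2 = (F b (t, 0)).2 + (F a (b * t * b⁻¹, 0)).2
    rw [map_mul, Equiv.Perm.mul_apply]
    have h1 : F b (t, 0) = (b * t * b⁻¹, (F b (t, 0)).2) := Prod.ext (hF1 b (t, 0)) rfl
    rw [h1, hF2]

end Pool.Agent.H989R3.VR
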