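import Mathlib
import Pool.Agent.H989R3.VR.RACG

set_option autoImplicit false

namespace Pool.Agent.H989R3.VR

variable {S : Type} {E : SimpleGraph S}

/-- the properties of the sign cocycle -/
structure IsCoc (n : RACG E → RACG E → ZMod 2) : Prop where
  one : ∀ t, n 1 t = 0
  self : ∀ i, n (gen E i) (gen E i) = 1
  ne : ∀ i t, t ≠ gen E i → n (gen E i) t = 0
  mul : ∀ a b t, n (a * b) t = n b t + n a (b * t * b⁻¹)

theorem exists_coc (E : SimpleGraph S) : ∃ n : RACG E → RACG E → ZMod 2, IsCoc n := by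
  obtain ⟨n, h1, h2, h3⟩ := exists_cocycle E
  exact ⟨n, h1, fun i => (h2 i _).1 rfl, fun i t => (h2 i t).2, h3⟩

variable {n : RACG E → RACG E → ZMod 2}

theorem IsCoc.cons (hn : IsCoc n) (i : S) (w t : RACG E) :
    n (gen E i * w)⁻¹ t = n (gen E i) t + n w⁻¹ (gen E i * t * gen E i) := by
  have h := hn.mul w⁻¹ (gen E i) t
  rw [gen_inv] at h
  rw [mul_inv_rev, gen_inv, h]

theorem IsCoc.shorten (hn : IsCoc n) (l : List S) : ∀ t, n (wprod E l)⁻¹ t ≠ 0 →
    ∃ l' : List S, wprod E l' = t * wprod E l ∧ l'.length < l.length := by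
  induction l with
  | nil =>
    intro t ht
    exfalso
    apply ht
    have : (wprod E ([] : List S))⁻¹ = 1 := by simp [wprod]
    rw [this, hn.one]
  | cons i l ih =>
    intro t ht
    rw [wprod_cons, hn.cons] at ht
    by_cases hti : t = gen E i
    · refine ⟨l, ?_, by simp⟩
      rw [wprod_cons, hti, ← mul_assoc, gen_mul_gen, one_mul]
    · rw [hn.ne i t hti, zero_add] at ht
      obtain ⟨l', hl', hlen⟩ := ih _ ht
      refine ⟨i :: l', ?_, by simpa using hlen⟩
      rw [wprod_cons, wprod_cons, hl']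
      calc gen E i * (gen E i * t * gen E i * wprod E l) =
          (gen E i * gen E i) * (t * (gen E i * wprod E l)) := by group
        _ = _ := by rw [gen_mul_gen, one_mul]

theorem IsCoc.wlen_lt (hn : IsCoc n) {w t : RACG E} (h : n w⁻¹ t ≠ 0) :
    wlen (t * w) < wlen w := by
  obtain ⟨l, hl, rfl⟩ := wlen_spec w
  obtain ⟨l', hl', hlen⟩ := hn.shorten l t h
  rw [← hl', ← hl]
  exact lt_of_le_of_lt (wlen_le l') hlen

theorem zmod_cases (x : ZMod 2) : x = 0 ∨ x = 1 := by
  revert x
  decide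

theorem zmod_add_self (x : ZMod 2) : x + x = 0 := by
  revert x
  decide

theorem IsCoc.refl_self (hn : IsCoc n) (u : RACG E) (i : S) :
    n (u * gen E i * u⁻¹) (u * gen E i * u⁻¹) = 1 := by
  set t := u * gen E i * u⁻¹ with ht
  have h1 : u⁻¹ * t * u = gen E i := by rw [ht]; group
  have h2 : n (u * (gen E i * u⁻¹)) t = n (gen E i * u⁻¹) t +
      n u ((gen E i * u⁻¹) * t * (gen E i * u⁻¹)⁻¹) := hn.mul _ _ _
  have h3 : n (gen E i * u⁻¹) t = n u⁻¹ t + n (gen E i) (u⁻¹ * t * u⁻¹⁻¹) := hn.mul _ _ _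
  have h4 : u⁻¹ * t * u⁻¹⁻¹ = gen E i := by rw [inv_inv]; exact h1
  have h5 : (gen E i * u⁻¹) * t * (gen E i * u⁻¹)⁻¹ = gen E i := by
    have : (gen E i * u⁻¹) * t * (gen E i * u⁻¹)⁻¹ = gen E i * (u⁻¹ * t * u) * (gen E i)⁻¹ := by
      group
    rw [this, h1]
    group
  have h6 : n (u * u⁻¹) t = n u⁻¹ t + n u (u⁻¹ * t * u⁻¹⁻¹) := hn.mul _ _ _
  rw [mul_inv_cancel, hn.one, h4] at h6
  rw [h4, hn.self] at h3
  rw [h5, h3] at h2
  have h7 : t = u * (gen E i * u⁻¹) := by rw [ht]; group
  have h8 : n t t = n (u * (gen E i * u⁻¹)) t := by rw [← h7]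
  rw [h8, h2]
  calc n u⁻¹ t + 1 + n u (gen E i) = (n u⁻¹ t + n u (gen E i)) + 1 := by ring
    _ = 1 := by rw [← h6, zero_add]

/-- alternating products -/
def alt {G : Type} [Group G] : G → G → ℕ → G
  | _, _, 0 => 1
  | a, b, m + 1 => a * alt b a m

theorem exists_alt {G : Type} [Group G] {a b : G} (ha : a * a = 1) (hb : b * b = 1) {e : G}
    (he : e ∈ Subgroup.closure ({a, b} : Set G)) : ∃ m, e = alt a b m ∨ e = alt b a m := by
  have ha' : a⁻¹ = a := inv_eq_of_mul_eq_one_left ha
  have hb' : b⁻¹ = b := inv_eq_of_mul_eq_one_left hb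
  have step : ∀ (a b : G), a * a = 1 → ∀ e, (∃ m, e = alt a b m ∨ e = alt b a m) →
      ∃ m, a * e = alt a b m ∨ a * e = alt b a m := by
    rintro a b ha e ⟨m, rfl | rfl⟩
    · cases m with
      | zero => exact ⟨1, Or.inl rfl⟩
      | succ m =>
        refine ⟨m, Or.inr ?_⟩
        change a * (a * alt b a m) = _
        rw [← mul_assoc, ha, one_mul]
    · exact ⟨m + 1, Or.inl rfl⟩
  have swap : ∀ e, (∃ m, e = alt a b m ∨ e = alt b a m) → ∃ m, e = alt b a m ∨ e = alt a b m := by
    rintro e ⟨m, h⟩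
    exact ⟨m, h.symm⟩
  have swap' : ∀ e, (∃ m, e = alt b a m ∨ e = alt a b m) → ∃ m, e = alt a b m ∨ e = alt b a m := by
    rintro e ⟨m, h⟩
    exact ⟨m, h.symm⟩
  induction he using Subgroup.closure_induction_left with
  | one => exact ⟨0, Or.inl rfl⟩
  | mul_left x hx y _ ih =>
    rcases hx with rfl | rfl
    · exact step _ b ha y ih
    · exact swap' _ (step _ a hb y (swap _ ih))
  | inv_mul_cancel x hx y _ ih =>
    rcases hx with rfl | rfl
    · rw [ha']
      exact step _ b ha y ih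
    · rw [hb']
      exact swap' _ (step _ a hb y (swap _ ih))

/-- the product of two non adjacent generators has infinite order -/
theorem infinite_order {i j : S} (hij : i ≠ j) (hE : ¬ E.Adj i j) (k : ℕ) :
    (gen E i * gen E j) ^ (k + 1) ≠ 1 := by
  classical
  let pi : Equiv.Perm ℤ := ⟨fun x => -x, fun x => -x, fun x => by simp, fun x => by simp⟩
  let pj : Equiv.Perm ℤ := ⟨fun x => 1 - x, fun x => 1 - x, fun x => by simp, fun x => by simp⟩
  have hpi : ∀ x, pi x = -x := fun x => rfl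
  have hpj : ∀ x, pj x = 1 - x := fun x => rfl
  let f : S → Equiv.Perm ℤ := fun l => if l = i then pi else if l = j then pj else 1
  have hfi : f i = pi := if_pos rfl
  have hfj : f j = pj := by
    change (if j = i then pi else if j = j then pj else 1) = pj
    rw [if_neg (Ne.symm hij), if_pos rfl]
  have hfl : ∀ l, l ≠ i → l ≠ j → f l = 1 := by
    intro l h1 h2
    change (if l = i then pi else if l = j then pj else 1) = 1
    rw [if_neg h1, if_neg h2]
  have hpi2 : pi * pi = 1 := by
    ext x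
    rw [Equiv.Perm.mul_apply, hpi, hpi]
    simp
  have hpj2 : pj * pj = 1 := by
    ext x
    rw [Equiv.Perm.mul_apply, hpj, hpj]
    simp
  obtain ⟨F, hF⟩ := exists_lift (E := E) f (by
    intro l
    by_cases h1 : l = i
    · rw [h1, hfi, hpi2]
    · by_cases h2 : l = j
      · rw [h2, hfj, hpj2]
      · rw [hfl l h1 h2, one_mul]) (by
    intro l m hlm
    by_cases h1 : l = i
    · have h2 : m ≠ i := by
        rintro rfl
        rw [h1] at hlm
        exact E.loopless.irrefl _ hlm
      have h3 : m ≠ j := by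
        rintro rfl
        rw [h1] at hlm
        exact hE hlm
      rw [hfl m h2 h3, one_mul, mul_one]
    · by_cases h2 : l = j
      · have h3 : m ≠ i := by
          rintro rfl
          rw [h2] at hlm
          exact hE hlm.symm
        have h4 : m ≠ j := by
          rintro rfl
          rw [h2] at hlm
          exact E.loopless.irrefl _ hlm
        rw [hfl m h3 h4, one_mul, mul_one]
      · rw [hfl l h1 h2, one_mul, mul_one])
  intro h
  have h1 := congrArg F h
  rw [map_pow, map_mul, hF, hF, hfi, hfj, map_one] at h1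
  have h2 : ∀ m : ℕ, ∀ x : ℤ, ((pi * pj) ^ m) x = x - m := by
    intro m
    induction m with
    | zero => intro x; simp
    | succ m ih =>
      intro x
      rw [pow_succ', Equiv.Perm.mul_apply, ih, Equiv.Perm.mul_apply, hpj, hpi]
      push_cast
      ring
  have h3 := h2 (k + 1) 0
  rw [h1, Equiv.Perm.one_apply] at h3
  push_cast at h3
  omega

theorem IsCoc.alt_zero (hn : IsCoc n) (m : ℕ) : ∀ (i j : S), i ≠ j → ¬ E.Adj i j → ∀ k : ℕ,
    n (alt (gen E i) (gen E j) m)⁻¹ (gen E j * (gen E i * gen E j) ^ k) = 0 := by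
  induction m with
  | zero =>
    intro i j _ _ k
    change n (1 : RACG E)⁻¹ _ = 0
    rw [inv_one, hn.one]
  | succ m ih =>
    intro i j hij hE k
    change n (gen E i * alt (gen E j) (gen E i) m)⁻¹ _ = 0
    rw [hn.cons]
    have h1 : gen E j * (gen E i * gen E j) ^ k ≠ gen E i := by
      intro h
      apply infinite_order hij hE k
      rw [pow_succ', mul_assoc, h, gen_mul_gen]
    rw [hn.ne i _ h1, zero_add]
    have h2 : gen E i * (gen E j * (gen E i * gen E j) ^ k) * gen E i =
        gen E i * (gen E j * gen E i) ^ (k + 1) := by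
      have h3 : ∀ a b : RACG E, b * (a * b) ^ k * a = (b * a) ^ (k + 1) := by
        intro a b
        have h4 : ∀ k : ℕ, b * (a * b) ^ k = (b * a) ^ k * b := by
          intro k
          induction k with
          | zero => simp
          | succ k ihk =>
            rw [pow_succ, pow_succ, ← mul_assoc, ihk]
            group
        rw [h4, pow_succ]
        group
      rw [← h3]
      group
    rw [h2]
    exact ih j i (Ne.symm hij) (fun h => hE h.symm) (k + 1)

/-- two left descents commute -/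
theorem IsCoc.descents (hn : IsCoc n) {i j : S} (hij : i ≠ j) {u : RACG E}
    (h1 : n u⁻¹ (gen E i) ≠ 0) (h2 : n u⁻¹ (gen E j) ≠ 0) : E.Adj i j := by
  by_contra hE
  set D := Subgroup.closure ({gen E i, gen E j} : Set (RACG E)) with hD
  obtain ⟨d, hd, hmin⟩ : ∃ d ∈ D, ∀ d' ∈ D, wlen (d * u) ≤ wlen (d' * u) := by
    classical
    have hne : ∃ m, ∃ d ∈ D, wlen (d * u) = m := ⟨_, 1, one_mem _, rfl⟩
    obtain ⟨d, hd, hdm⟩ := Nat.find_spec hne
    refine ⟨d, hd, ?_⟩
    intro d' hd'
    rw [hdm]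
    exact Nat.find_min' hne ⟨d', hd', rfl⟩
  have h3 : ∀ t ∈ D, n (d * u)⁻¹ t = 0 := by
    intro t ht
    by_contra h4
    have h5 := hn.wlen_lt h4
    have h6 := hmin (t * d) (mul_mem ht hd)
    rw [mul_assoc] at h6
    omega
  have hiD : gen E i ∈ D := Subgroup.subset_closure (Or.inl rfl)
  have hjD : gen E j ∈ D := Subgroup.subset_closure (Or.inr rfl)
  have h4 : ∀ t ∈ D, n u⁻¹ t = n d t := by
    intro t ht
    have h5 : u⁻¹ = (d * u)⁻¹ * d := by group
    rw [h5, hn.mul, h3 _ (mul_mem (mul_mem hd ht) (inv_mem hd)), add_zero]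
  rw [h4 _ hiD] at h1
  rw [h4 _ hjD] at h2
  obtain ⟨m, hm⟩ := exists_alt (gen_mul_gen i) (gen_mul_gen j) (inv_mem hd)
  have h5 : d = (d⁻¹)⁻¹ := by group
  rcases hm with hm | hm
  · apply h2
    rw [h5, hm]
    have := hn.alt_zero m i j hij hE 0
    rwa [pow_zero, mul_one] at this
  · apply h1
    rw [h5, hm]
    have := hn.alt_zero m j i (Ne.symm hij) (fun h => hE h.symm) 0
    rwa [pow_zero, mul_one] at this

end Pool.Agent.H989R3.VR
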