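import Mathlib
import Pool.Agent.H989R3.VR.Basic

set_option autoImplicit false

namespace Pool.Agent.H989R3.VR

variable {Γ V : Type} [Group Γ] [MulAction Γ V]
  {adj : V → V → Prop} {R : Set Γ} {side : Γ → V → Prop} {C : Set V}

/-- the reflections whose wall bounds `C` -/
def RC (adj : V → V → Prop) (R : Set Γ) (side : Γ → V → Prop) (C : Set V) : Set Γ :=
  {r | r ∈ R ∧ ∃ c ∈ C, ∃ x, adj c x ∧ x ∉ C ∧ Sep side r c x}

theorem rc_not_sep (hC : IsConvex adj R side C) {r : Γ} (hr : r ∈ RC adj R side C) {c c' : V}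
    (hc : c ∈ C) (hc' : c' ∈ C) : ¬ Sep side r c c' := by
  obtain ⟨hrR, c0, hc0, x, hx, hxC, hs⟩ := hr
  have h1 : ∀ d ∈ C, ¬ Sep side r c0 d := by
    intro d hd hsd
    exact hxC (hC c0 hc0 d hd x hx ⟨r, hrR, hs, hsd⟩)
  intro h2
  have h3 := (sep_of (h1 c hc)).mpr h2
  exact h1 c' hc' h3

/-- a vertex outside of `C` is separated from `C` by a bounding wall -/
theorem exists_exit (h : IsRightAngled adj R side) (hC : IsConvex adj R side C) {c0 : V}
    (hc0 : c0 ∈ C) {v : V} (hv : v ∉ C) : ∃ r ∈ RC adj R side C, Sep side r c0 v := by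
  obtain ⟨c, hc, hmin⟩ : ∃ c ∈ C, ∀ d ∈ C, mu R side c v ≤ mu R side d v := by
    have hne : ∃ n, ∃ d ∈ C, mu R side d v = n := ⟨_, c0, hc0, rfl⟩
    classical
    obtain ⟨c, hc, hcn⟩ := Nat.find_spec hne
    refine ⟨c, hc, ?_⟩
    intro d hd
    rw [hcn]
    exact Nat.find_min' hne ⟨d, hd, rfl⟩
  have hcv : c ≠ v := by
    rintro rfl
    exact hv hc
  obtain ⟨x, hx, r, hr, h1, h2⟩ := h.geod c v hcv
  have h3 := mu_lt h.toPre hx hr h1 h2
  have hxC : x ∉ C := by
    intro hxC
    have := hmin x hxC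
    omega
  have hrc : r ∈ RC adj R side C := ⟨hr, c, hc, x, hx, hxC, h1⟩
  exact ⟨r, hrc, (sep_of (rc_not_sep hC hrc hc0 hc)).mpr h2⟩

/-- two bounding walls separating a vertex from `C` cross -/
theorem commute_of (h : IsRightAngled adj R side) (hC : IsConvex adj R side C) {c0 : V}
    (hc0 : c0 ∈ C) {v : V} {r s : Γ} (hr : r ∈ RC adj R side C) (hs : s ∈ RC adj R side C)
    (hne : r ≠ s) (hrv : Sep side r c0 v) (hsv : Sep side s c0 v) : r * s = s * r := by
  obtain ⟨hrR, c, hc, x, hx, hxC, hrx⟩ := id hr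
  obtain ⟨hsR, d, hd, y, hy, hyC, hsy⟩ := id hs
  have hrc0x : Sep side r c0 x := (sep_of (rc_not_sep hC hr hc0 hc)).mpr hrx
  have hsc0y : Sep side s c0 y := (sep_of (rc_not_sep hC hs hc0 hd)).mpr hsy
  have hsx : ¬ Sep side s c0 x := by
    intro h1
    have h2 : Sep side s c x := (sep_of (rc_not_sep hC hs hc0 hc)).mp h1
    obtain ⟨r0, _, _, _, hu⟩ := h.edge c x hx
    exact hne ((hu r hrR hrx).trans (hu s hsR h2).symm)
  have hry : ¬ Sep side r c0 y := by
    intro h1
    have h2 : Sep side r d y := (sep_of (rc_not_sep hC hr hc0 hd)).mp h1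
    obtain ⟨r0, _, _, _, hu⟩ := h.edge d y hy
    exact hne ((hu r hrR h2).trans (hu s hsR hsy).symm)
  exact h.cross r hrR s hsR c0 x y v hrc0x hsx hry hsc0y hrv hsv

/-- a bounding reflection commuting with a wall preserves the sides of that wall -/
theorem not_sep_smul (h : IsRightAngled adj R side) {r s : Γ} (hr : r ∈ RC adj R side C)
    (hs : s ∈ R) (hne : r ≠ s) (hcomm : r * s = s * r) (v : V) : ¬ Sep side s v (r • v) := by
  obtain ⟨hrR, c, hc, x, hx, hxC, hrx⟩ := hr
  obtain ⟨r0, hr0, _, hr02, hu⟩ := h.edge c x hx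
  have he : r = r0 := hu r hrR hrx
  subst he
  have h1 : ¬ Sep side s c (r • c) := by
    rw [hr02]
    intro h2
    exact hne (hu s hs h2).symm
  have h2 : r * s * r⁻¹ = s := by rw [hcomm]; group
  have h3 := h.sep_conj s hs r v c
  rw [h2] at h3
  unfold Sep at *
  tauto

theorem exists_rec {W : Type} (μ : W → ℕ) (D : Set W) (f : W → W)
    (hf : ∀ v, v ∉ D → μ (f v) < μ v) :
    ∃ nf : W → W, (∀ v ∈ D, nf v = v) ∧ ∀ v, v ∉ D → nf v = nf (f v) := by
  classical
  let F : (v : W) → ((w : W) → μ w < μ v → W) → W := fun v IH =>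
    if hv : v ∈ D then v else IH (f v) (hf v hv)
  let nf : W → W := (measure μ).wf.fix F
  have hnf : ∀ v, nf v = F v (fun w _ => nf w) := fun v => WellFounded.fix_eq _ F v
  refine ⟨nf, ?_, ?_⟩
  · intro v hv
    rw [hnf]
    exact dif_pos hv
  · intro v hv
    rw [hnf]
    exact dif_neg hv

/-- the folding map -/
theorem exists_fold (h : IsRightAngled adj R side) (hC : IsConvex adj R side C) {c0 : V}
    (hc0 : c0 ∈ C) : ∃ nf : V → V, (∀ v ∈ C, nf v = v) ∧
      ∀ g ∈ Subgroup.closure (RC adj R side C), ∀ v, nf (g • v) = nf v := by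
  classical
  have hch : ∀ v : V, ∃ r : Γ, v ∉ C → (r ∈ RC adj R side C ∧ Sep side r c0 v) := by
    intro v
    by_cases hv : v ∈ C
    · exact ⟨1, fun h' => absurd hv h'⟩
    · obtain ⟨r, hr, hs⟩ := exists_exit h hC hc0 hv
      exact ⟨r, fun _ => ⟨hr, hs⟩⟩
  choose ρ hρ using hch
  have hdesc : ∀ (r : Γ) (v : V), r ∈ R → Sep side r c0 v →
      mu R side c0 (r • v) < mu R side c0 v :=
    fun r v hr hs => mu_descent h.toPre _ c0 v r hr le_rfl hs
  obtain ⟨nf, hnf1, hnf2⟩ := exists_rec (mu R side c0) C (fun v => ρ v • v)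
    (fun v hv => hdesc _ v (hρ v hv).1.1 (hρ v hv).2)
  have key : ∀ n : ℕ, ∀ v, mu R side c0 v ≤ n → ∀ r ∈ RC adj R side C, Sep side r c0 v →
      nf v = nf (r • v) := by
    intro n
    induction n with
    | zero =>
      intro v hv r hr hs
      have := hdesc r v hr.1 hs
      omega
    | succ n ih =>
      intro v hv r hr hs
      have hvC : v ∉ C := fun hvC => rc_not_sep hC hr hc0 hvC hs
      rw [hnf2 v hvC]
      change nf (ρ v • v) = _
      obtain ⟨hρ1, hρ2⟩ := hρ v hvC
      by_cases he : r = ρ v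
      · rw [he]
      · have hcomm := commute_of h hC hc0 hr hρ1 he hs hρ2
        have h1 := hdesc _ v hr.1 hs
        have h2 := hdesc _ v hρ1.1 hρ2
        have h3 : Sep side r c0 (ρ v • v) := by
          have h4 := not_sep_smul h hρ1 hr.1 (Ne.symm he) hcomm.symm v
          unfold Sep at *
          tauto
        have h4 : Sep side (ρ v) c0 (r • v) := by
          have h5 := not_sep_smul h hr hρ1.1 he hcomm v
          unfold Sep at *
          tauto
        have h5 := ih (ρ v • v) (by omega) r hr h3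
        have h6 := ih (r • v) (by omega) (ρ v) hρ1 h4
        rw [h5, h6, smul_smul, smul_smul, hcomm]
  have key2 : ∀ r ∈ RC adj R side C, ∀ v, nf (r • v) = nf v := by
    intro r hr v
    by_cases hs : Sep side r c0 v
    · exact (key _ v le_rfl r hr hs).symm
    · have h1 : Sep side r c0 (r • v) := by
        have h2 := h.swap r hr.1 v
        unfold Sep at *
        tauto
      have h2 := key _ (r • v) le_rfl r hr h1
      rw [smul_smul, h.invol r hr.1, one_smul] at h2
      exact h2
  refine ⟨nf, hnf1, ?_⟩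
  intro g hg
  induction hg using Subgroup.closure_induction with
  | mem r hr => exact key2 r hr
  | one => intro v; rw [one_smul]
  | mul a b _ _ ha hb => intro v; rw [mul_smul, ha, hb]
  | inv a _ ha =>
    intro v
    have := ha (a⁻¹ • v)
    rw [smul_inv_smul] at this
    exact this.symm

theorem exists_into (h : IsRightAngled adj R side) (hC : IsConvex adj R side C) {c0 : V}
    (hc0 : c0 ∈ C) (v : V) : ∃ g ∈ Subgroup.closure (RC adj R side C), g • v ∈ C := by
  have key : ∀ n : ℕ, ∀ v, mu R side c0 v ≤ n →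
      ∃ g ∈ Subgroup.closure (RC adj R side C), g • v ∈ C := by
    intro n
    induction n with
    | zero =>
      intro v hv
      by_cases hvC : v ∈ C
      · exact ⟨1, one_mem _, by rwa [one_smul]⟩
      · obtain ⟨r, hr, hs⟩ := exists_exit h hC hc0 hvC
        have := mu_descent h.toPre _ c0 v r hr.1 le_rfl hs
        omega
    | succ n ih =>
      intro v hv
      by_cases hvC : v ∈ C
      · exact ⟨1, one_mem _, by rwa [one_smul]⟩
      · obtain ⟨r, hr, hs⟩ := exists_exit h hC hc0 hvC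
        have h1 := mu_descent h.toPre _ c0 v r hr.1 le_rfl hs
        obtain ⟨g, hg, hgv⟩ := ih (r • v) (by omega)
        exact ⟨g * r, mul_mem hg (Subgroup.subset_closure hr), by rwa [mul_smul]⟩
  exact key _ v le_rfl

end Pool.Agent.H989R3.VR
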