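import Mathlib
import Pool.Agent.H989R3.VR.Fold

set_option autoImplicit false

namespace Pool.Agent.H989R3.VR

variable {Γ V : Type} [Group Γ] [MulAction Γ V]
  {adj : V → V → Prop} {R : Set Γ} {side : Γ → V → Prop} {C : Set V}

theorem conj_rc (h : IsRightAngled adj R side) (H : Subgroup Γ)
    (hH : ∀ g ∈ H, ∀ c ∈ C, g • c ∈ C) {g : Γ} (hg : g ∈ H) {r : Γ}
    (hr : r ∈ RC adj R side C) : g * r * g⁻¹ ∈ RC adj R side C := by
  obtain ⟨hrR, c, hc, x, hx, hxC, hs⟩ := hr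
  refine ⟨h.conj r hrR g, g • c, hH g hg c hc, g • x, h.adj_smul g c x hx, ?_,
    (h.sep_conj r hrR g c x).mpr hs⟩
  intro h1
  apply hxC
  have h2 := hH g⁻¹ (H.inv_mem hg) _ h1
  rwa [inv_smul_smul] at h2

theorem conj_closure (h : IsRightAngled adj R side) (H : Subgroup Γ)
    (hH : ∀ g ∈ H, ∀ c ∈ C, g • c ∈ C) {g : Γ} (hg : g ∈ H) {a : Γ}
    (ha : a ∈ Subgroup.closure (RC adj R side C)) :
    g * a * g⁻¹ ∈ Subgroup.closure (RC adj R side C) := by
  induction ha using Subgroup.closure_induction with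
  | mem r hr => exact Subgroup.subset_closure (conj_rc h H hH hg hr)
  | one => simp
  | mul a b _ _ ha hb =>
    have : g * (a * b) * g⁻¹ = (g * a * g⁻¹) * (g * b * g⁻¹) := by group
    rw [this]
    exact mul_mem ha hb
  | inv a _ ha =>
    have : g * a⁻¹ * g⁻¹ = (g * a * g⁻¹)⁻¹ := by group
    rw [this]
    exact inv_mem ha

theorem trivial_inter (h : IsRightAngled adj R side) (hC : IsConvex adj R side C) {c0 : V}
    (hc0 : c0 ∈ C) (H : Subgroup Γ) (hH : ∀ g ∈ H, ∀ c ∈ C, g • c ∈ C) {a : Γ} (ha : a ∈ H)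
    (ha' : a ∈ Subgroup.closure (RC adj R side C)) : a = 1 := by
  obtain ⟨nf, hnf1, hnf2⟩ := exists_fold h hC hc0
  have h1 : a • c0 ∈ C := hH a ha c0 hc0
  have h2 : a • c0 = c0 := by
    rw [← hnf1 _ h1, hnf2 a ha' c0, hnf1 _ hc0]
  refine h.free a ?_ c0 h2
  exact Subgroup.closure_mono (fun r hr => hr.1) ha'

theorem virtualRetract (h : IsRightAngled adj R side) (hC : IsConvex adj R side C) {c0 : V}
    (hc0 : c0 ∈ C) (H G : Subgroup Γ) (hHG : H ≤ G) (hH : ∀ g ∈ H, ∀ c ∈ C, g • c ∈ C)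
    (F : Set V) (hF : F.Finite) (hHF : ∀ c ∈ C, ∃ g ∈ H, g • c ∈ F)
    (hstab : ∀ v w : V, {g : Γ | g • v = w}.Finite) : IsVirtualRetract H G := by
  classical
  set N := Subgroup.closure (RC adj R side C) with hN
  let K0 : Subgroup Γ :=
    { carrier := {k | ∃ a ∈ N, ∃ b ∈ H, k = a * b}
      mul_mem' := by
        rintro _ _ ⟨a, ha, b, hb, rfl⟩ ⟨a', ha', b', hb', rfl⟩
        refine ⟨a * (b * a' * b⁻¹), mul_mem ha (conj_closure h H hH hb ha'), b * b',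
          mul_mem hb hb', ?_⟩
        group
      one_mem' := ⟨1, one_mem _, 1, one_mem _, by simp⟩
      inv_mem' := by
        rintro _ ⟨a, ha, b, hb, rfl⟩
        refine ⟨b⁻¹ * a⁻¹ * b, ?_, b⁻¹, inv_mem hb, by group⟩
        have := conj_closure h H hH (inv_mem hb) (inv_mem ha)
        rwa [inv_inv] at this }
  have hK0 : ∀ k, k ∈ K0 ↔ ∃ a ∈ N, ∃ b ∈ H, k = a * b := fun k => Iff.rfl
  have hHK : H ≤ K0 := fun b hb => ⟨1, one_mem _, b, hb, by simp⟩
  -- finite index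
  have hfin : K0.FiniteIndex := by
    have hT : ({g : Γ | g • c0 ∈ F} : Set Γ).Finite := by
      have : ({g : Γ | g • c0 ∈ F} : Set Γ) = ⋃ f ∈ F, {g : Γ | g • c0 = f} := by
        ext g
        simp
      rw [this]
      exact hF.biUnion (fun f _ => hstab c0 f)
    rw [Subgroup.finiteIndex_iff_finite_quotient]
    have := hT.to_subtype
    refine Finite.of_surjective
      (fun τ : ({g : Γ | g • c0 ∈ F} : Set Γ) => (QuotientGroup.mk (τ : Γ)⁻¹ : Γ ⧸ K0)) ?_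
    intro q
    obtain ⟨γ, rfl⟩ := QuotientGroup.mk_surjective q
    obtain ⟨a, ha, hav⟩ := exists_into h hC hc0 (γ⁻¹ • c0)
    obtain ⟨b, hb, hbv⟩ := hHF _ hav
    refine ⟨⟨b * a * γ⁻¹, ?_⟩, ?_⟩
    · change (b * a * γ⁻¹) • c0 ∈ F
      rwa [mul_smul, mul_smul]
    · change (QuotientGroup.mk (b * a * γ⁻¹)⁻¹ : Γ ⧸ K0) = QuotientGroup.mk γ
      rw [QuotientGroup.eq]
      have h1 : ((b * a * γ⁻¹)⁻¹)⁻¹ * γ = b * a := by group
      rw [h1]
      exact mul_mem (hHK hb) ⟨a, ha, 1, one_mem _, by simp⟩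
  -- the retraction
  have hdec : ∀ k : K0, ∃ b : H, (k : Γ) * (b : Γ)⁻¹ ∈ N := by
    rintro ⟨k, a, ha, b, hb, rfl⟩
    refine ⟨⟨b, hb⟩, ?_⟩
    have : a * b * b⁻¹ = a := by group
    change a * b * b⁻¹ ∈ N
    rw [this]
    exact ha
  choose ρ hρ using hdec
  have huniq : ∀ (k : K0) (b : H), (k : Γ) * (b : Γ)⁻¹ ∈ N → ρ k = b := by
    intro k b hb
    have h1 := hρ k
    have h2 : ((k : Γ) * (ρ k : Γ)⁻¹)⁻¹ * ((k : Γ) * (b : Γ)⁻¹) ∈ N := mul_mem (inv_mem h1) hb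
    have h3 : ((k : Γ) * (ρ k : Γ)⁻¹)⁻¹ * ((k : Γ) * (b : Γ)⁻¹) = (ρ k : Γ) * (b : Γ)⁻¹ := by
      group
    rw [h3] at h2
    have h4 := trivial_inter h hC hc0 H hH (mul_mem (ρ k).2 (inv_mem b.2)) h2
    have h5 : (ρ k : Γ) = b := by
      rwa [mul_inv_eq_one] at h4
    exact Subtype.ext h5
  let ρ0 : K0 →* H :=
    { toFun := ρ
      map_one' := huniq 1 1 (by simp)
      map_mul' := by
        intro k k'
        apply huniq
        have h1 := hρ k
        have h2 := hρ k'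
        have h3 : ((k * k' : K0) : Γ) * ((ρ k * ρ k' : H) : Γ)⁻¹ =
            ((k : Γ) * (ρ k : Γ)⁻¹) *
              ((ρ k : Γ) * ((k' : Γ) * (ρ k' : Γ)⁻¹) * (ρ k : Γ)⁻¹) := by
          push_cast
          group
        rw [h3]
        exact mul_mem h1 (conj_closure h H hH (ρ k).2 h2) }
  refine ⟨K0 ⊓ G, inf_le_right, ?_, le_inf hHK hHG,
    ρ0.comp (Subgroup.inclusion inf_le_left), ?_⟩
  · rw [Subgroup.inf_relIndex_right]
    have h1 : (K0.subgroupOf G).FiniteIndex := inferInstance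
    exact h1.index_ne_zero
  · rintro ⟨b, hb⟩
    change ρ ⟨b, _⟩ = _
    apply huniq
    change b * b⁻¹ ∈ N
    rw [mul_inv_cancel]
    exact one_mem _

end Pool.Agent.H989R3.VR
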