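import Mathlib
import Pool.Agent.H989R3.VR.RACG
import Pool.Agent.H989R3.VR.Defs

set_option autoImplicit false

/-!
# Semidirect products of right-angled Coxeter groups with groups of graph automorphisms
-/

namespace Pool.Agent.H989R3.VR

variable {S : Type} {E : SimpleGraph S} {A : Type} [Group A] [MulAction A S]

/-- `A` acts on the graph `E` by automorphisms -/
def ActsOn (A : Type) [Group A] {S : Type} [MulAction A S] (E : SimpleGraph S) : Prop :=
  ∀ (a : A) (i j : S), E.Adj i j → E.Adj (a • i) (a • j)

theorem actsOn_rels (hA : ActsOn A E) (a : A) :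
    ∀ r ∈ racgRels E, FreeGroup.lift (fun i => gen E (a • i)) r = 1 := by
  rintro r (⟨i, rfl⟩ | ⟨i, j, hij, rfl⟩)
  · simp only [map_mul, FreeGroup.lift_apply_of]
    exact gen_mul_gen _
  · simp only [map_mul, FreeGroup.lift_apply_of]
    have h := gen_comm (E := E) (hA a i j hij)
    calc gen E (a • i) * gen E (a • j) * gen E (a • i) * gen E (a • j) =
        gen E (a • i) * (gen E (a • j) * gen E (a • i)) * gen E (a • j) := by group
      _ = gen E (a • i) * (gen E (a • i) * gen E (a • j)) * gen E (a • j) := by rw [h]
      _ = (gen E (a • i) * gen E (a • i)) * (gen E (a • j) * gen E (a • j)) := by group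
      _ = 1 := by rw [gen_mul_gen, gen_mul_gen, one_mul]

/-- the endomorphism of the right-angled Coxeter group induced by `a : A` -/
noncomputable def actHom (hA : ActsOn A E) (a : A) : RACG E →* RACG E :=
  PresentedGroup.toGroup (actsOn_rels hA a)

theorem actHom_gen (hA : ActsOn A E) (a : A) (i : S) : actHom hA a (gen E i) = gen E (a • i) :=
  PresentedGroup.toGroup.of (actsOn_rels hA a)

theorem hom_ext' {G : Type} [Group G] {f g : RACG E →* G} (h : ∀ i, f (gen E i) = g (gen E i)) :
    f = g := PresentedGroup.ext h

theorem actHom_mul (hA : ActsOn A E) (a b : A) (w : RACG E) :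
    actHom hA (a * b) w = actHom hA a (actHom hA b w) := by
  have h : actHom hA (a * b) = (actHom hA a).comp (actHom hA b) := by
    apply hom_ext'
    intro i
    rw [MonoidHom.comp_apply, actHom_gen, actHom_gen, actHom_gen, mul_smul]
  rw [h, MonoidHom.comp_apply]

theorem actHom_one (hA : ActsOn A E) (w : RACG E) : actHom hA 1 w = w := by
  have h : actHom hA (1 : A) = MonoidHom.id (RACG E) := by
    apply hom_ext'
    intro i
    rw [actHom_gen, one_smul, MonoidHom.id_apply]
  rw [h, MonoidHom.id_apply]

/-- the action of `A` on the right-angled Coxeter group -/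
noncomputable def phi (hA : ActsOn A E) : A →* MulAut (RACG E) where
  toFun a :=
    { toFun := actHom hA a
      invFun := actHom hA a⁻¹
      left_inv := fun w => by rw [← actHom_mul, inv_mul_cancel, actHom_one]
      right_inv := fun w => by rw [← actHom_mul, mul_inv_cancel, actHom_one]
      map_mul' := fun v w => map_mul _ v w }
  map_one' := by
    ext w
    exact actHom_one hA w
  map_mul' a b := by
    ext w
    exact actHom_mul hA a b w

theorem phi_apply (hA : ActsOn A E) (a : A) (w : RACG E) : phi hA a w = actHom hA a w := rfl

/-- the group `W ⋊ A` -/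
abbrev WA (hA : ActsOn A E) : Type := RACG E ⋊[phi hA] A

/-- the action of `W ⋊ A` on the set `W` of vertices of the Davis complex -/
noncomputable instance (hA : ActsOn A E) : MulAction (WA hA) (RACG E) where
  smul g v := g.left * phi hA g.right v
  one_smul v := by
    change (1 : WA hA).left * phi hA (1 : WA hA).right v = v
    simp
  mul_smul g g' v := by
    change (g * g').left * phi hA (g * g').right v =
      g.left * phi hA g.right (g'.left * phi hA g'.right v)
    simp [mul_assoc]

theorem wa_smul (hA : ActsOn A E) (g : WA hA) (v : RACG E) :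
    g • v = g.left * phi hA g.right v := rfl

end Pool.Agent.H989R3.VR
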