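import Mathlib
import Pool.Agent.H989R3.VR.Semi
import Pool.Agent.H989R3.VR.Cox
import Pool.Agent.H989R3.VR.Retract

set_option autoImplicit false

namespace Pool.Agent.H989R3.VR

variable {S : Type} {E : SimpleGraph S} {A : Type} [Group A] [MulAction A S]
  {n : RACG E → RACG E → ZMod 2}

/-- edges of the Cayley graph -/
def cadj (E : SimpleGraph S) (v w : RACG E) : Prop := ∃ i, w = v * gen E i

/-- the reflections -/
def refl (hA : ActsOn A E) : Set (WA hA) :=
  {g | ∃ u i, g = SemidirectProduct.inl (u * gen E i * u⁻¹)}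

/-- halfspaces -/
def cside (hA : ActsOn A E) (n : RACG E → RACG E → ZMod 2) (g : WA hA) (v : RACG E) : Prop :=
  n v⁻¹ g.left = 1

theorem sep_iff (hA : ActsOn A E) (g : WA hA) (v w : RACG E) :
    Sep (cside hA n) g v w ↔ n v⁻¹ g.left + n w⁻¹ g.left = 1 := by
  unfold Sep cside
  generalize n v⁻¹ g.left = x
  generalize n w⁻¹ g.left = y
  revert x y
  decide

theorem actHom_inj (hA : ActsOn A E) (a : A) {x y : RACG E} (h : actHom hA a x = actHom hA a y) :
    x = y := (phi hA a).injective h

theorem IsCoc.act (hn : IsCoc n) (hA : ActsOn A E) (a : A) (w : RACG E) : ∀ t,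
    n (actHom hA a w)⁻¹ (actHom hA a t) = n w⁻¹ t := by
  obtain ⟨l, rfl⟩ := exists_word w
  induction l with
  | nil =>
    intro t
    have : wprod E ([] : List S) = 1 := by simp [wprod]
    rw [this, map_one, inv_one, hn.one, hn.one]
  | cons i l ih =>
    intro t
    rw [wprod_cons, map_mul, actHom_gen, hn.cons, hn.cons]
    have h1 : gen E (a • i) * actHom hA a t * gen E (a • i) =
        actHom hA a (gen E i * t * gen E i) := by
      rw [map_mul, map_mul, actHom_gen]
    rw [h1, ih]
    congr 1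
    by_cases h2 : t = gen E i
    · rw [h2, actHom_gen, hn.self, hn.self]
    · rw [hn.ne i t h2, hn.ne]
      intro h3
      rw [← actHom_gen hA] at h3
      exact h2 (actHom_inj hA a h3)

theorem conj_inl (hA : ActsOn A E) (g : WA hA) (t : RACG E) :
    g * SemidirectProduct.inl t * g⁻¹ =
      SemidirectProduct.inl (g.left * actHom hA g.right t * g.left⁻¹) := by
  apply SemidirectProduct.ext
  · simp only [SemidirectProduct.mul_left, SemidirectProduct.mul_right,
      SemidirectProduct.left_inl, SemidirectProduct.right_inl, SemidirectProduct.inv_left, mul_one]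
    rw [← MulAut.mul_apply, ← map_mul, mul_inv_cancel, map_one, MulAut.one_apply, phi_apply]
  · simp

theorem diff_smul (hn : IsCoc n) (hA : ActsOn A E) (g : WA hA) (v w t : RACG E) :
    n (g • v)⁻¹ (g.left * actHom hA g.right t * g.left⁻¹) +
      n (g • w)⁻¹ (g.left * actHom hA g.right t * g.left⁻¹) = n v⁻¹ t + n w⁻¹ t := by
  have h : ∀ v, n (g • v)⁻¹ (g.left * actHom hA g.right t * g.left⁻¹) =
      n g.left⁻¹ (g.left * actHom hA g.right t * g.left⁻¹) + n v⁻¹ t := by
    intro v
    rw [wa_smul, mul_inv_rev, hn.mul]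
    congr 1
    have h1 : g.left⁻¹ * (g.left * actHom hA g.right t * g.left⁻¹) * g.left⁻¹⁻¹ =
        actHom hA g.right t := by group
    rw [h1, phi_apply, hn.act]
  rw [h, h]
  generalize n g.left⁻¹ (g.left * actHom hA g.right t * g.left⁻¹) = x
  generalize n v⁻¹ t = y
  generalize n w⁻¹ t = z
  revert x y z
  decide

theorem smul_gen (hA : ActsOn A E) (g : WA hA) (v : RACG E) (i : S) :
    g • (v * gen E i) = (g • v) * gen E (g.right • i) := by
  rw [wa_smul, wa_smul, phi_apply, phi_apply, map_mul, actHom_gen, mul_assoc]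

theorem inl_smul (hA : ActsOn A E) (t v : RACG E) :
    (SemidirectProduct.inl t : WA hA) • v = t * v := by
  rw [wa_smul]
  simp

theorem n_edge (hn : IsCoc n) (v : RACG E) (i : S) (t : RACG E) :
    (n v⁻¹ t + n (v * gen E i)⁻¹ t = 1) ↔ t = v * gen E i * v⁻¹ := by
  have h1 : n (v * gen E i)⁻¹ t = n v⁻¹ t + n (gen E i) (v⁻¹ * t * v) := by
    have := hn.mul (gen E i) v⁻¹ t
    rw [inv_inv] at this
    rw [mul_inv_rev, gen_inv, this]
  rw [h1, ← add_assoc, zmod_add_self, zero_add]
  constructor
  · intro h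
    by_contra h2
    have h3 : v⁻¹ * t * v ≠ gen E i := by
      intro h4
      apply h2
      rw [← h4]
      group
    rw [hn.ne i _ h3] at h
    exact absurd h (by decide)
  · rintro rfl
    have h3 : v⁻¹ * (v * gen E i * v⁻¹) * v = gen E i := by group
    rw [h3, hn.self]

/-- translation to the identity -/
theorem n_trans (hn : IsCoc n) (v w : RACG E) (s : RACG E) :
    n v⁻¹ (v * s * v⁻¹) + n w⁻¹ (v * s * v⁻¹) = n (v⁻¹ * w)⁻¹ s := by
  have h1 : w⁻¹ = (v⁻¹ * w)⁻¹ * v⁻¹ := by group
  rw [h1, hn.mul]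
  have h2 : v⁻¹ * (v * s * v⁻¹) * v⁻¹⁻¹ = s := by group
  rw [h2, ← add_assoc, zmod_add_self, zero_add]

theorem pre (hn : IsCoc n) (hA : ActsOn A E) : Pre (cadj E) (refl hA) (cside hA n) where
  adj_smul := by
    rintro g v _ ⟨i, rfl⟩
    exact ⟨g.right • i, smul_gen hA g v i⟩
  invol := by
    rintro _ ⟨u, i, rfl⟩
    rw [← map_mul]
    have : u * gen E i * u⁻¹ * (u * gen E i * u⁻¹) = u * (gen E i * gen E i) * u⁻¹ := by group
    rw [this, gen_mul_gen, mul_one, mul_inv_cancel, map_one]
  conj := by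
    rintro _ ⟨u, i, rfl⟩ g
    refine ⟨g.left * actHom hA g.right u, g.right • i, ?_⟩
    rw [conj_inl]
    congr 1
    rw [map_mul, map_mul, actHom_gen, map_inv, mul_inv_rev]
    group
  sep_conj := by
    rintro _ ⟨u, i, rfl⟩ g v w
    rw [conj_inl, sep_iff, sep_iff, SemidirectProduct.left_inl, SemidirectProduct.left_inl,
      diff_smul hn]
  swap := by
    rintro _ ⟨u, i, rfl⟩ v
    rw [sep_iff, inl_smul, SemidirectProduct.left_inl]
    set t := u * gen E i * u⁻¹ with ht
    have h0 : t⁻¹ = t := by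
      rw [ht, mul_inv_rev, mul_inv_rev, gen_inv, inv_inv, mul_assoc]
    have h1 : n (t * v)⁻¹ t = n t t + n v⁻¹ t := by
      rw [mul_inv_rev, hn.mul, h0]
      congr 2
      group
    rw [h1, ht, hn.refl_self, ← ht]
    generalize n v⁻¹ t = x
    revert x
    decide
  edge := by
    rintro v _ ⟨i, rfl⟩
    refine ⟨SemidirectProduct.inl (v * gen E i * v⁻¹), ⟨v, i, rfl⟩, ?_, ?_, ?_⟩
    · rw [sep_iff, SemidirectProduct.left_inl, n_edge hn]
    · rw [inl_smul]
      group
    · rintro _ ⟨u, j, rfl⟩ hs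
      rw [sep_iff, SemidirectProduct.left_inl, n_edge hn] at hs
      rw [hs]
  finite := by
    intro v w
    obtain ⟨l, hl⟩ := exists_word (v⁻¹ * w)
    have hw : w = v * wprod E l := by rw [hl]; group
    rw [hw]
    clear hl hw
    induction l generalizing v with
    | nil =>
      have : wprod E ([] : List S) = 1 := by simp [wprod]
      rw [this, mul_one]
      convert Set.finite_empty
      ext g
      simp only [Set.mem_setOf_eq, Set.mem_empty_iff_false, iff_false, not_and]
      intro _
      exact not_sep_self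
    | cons i l ih =>
      rw [wprod_cons, ← mul_assoc]
      refine Set.Finite.subset ((Set.finite_singleton
        (SemidirectProduct.inl (v * gen E i * v⁻¹) : WA hA)).union (ih (v * gen E i))) ?_
      rintro g ⟨hg, hs⟩
      by_cases h1 : Sep (cside hA n) g v (v * gen E i)
      · left
        obtain ⟨u, j, rfl⟩ := hg
        rw [sep_iff, SemidirectProduct.left_inl, n_edge hn] at h1
        rw [h1]
        rfl
      · right
        exact ⟨hg, (sep_of h1).mp hs⟩
  geod := by
    intro v w hvw
    obtain ⟨l, hl1, hl2⟩ := wlen_spec (v⁻¹ * w)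
    cases l with
    | nil =>
      exfalso
      apply hvw
      have h1 : v⁻¹ * w = 1 := by
        rw [← hl2]
        simp [wprod]
      exact (inv_mul_eq_one.mp h1)
    | cons i l =>
      refine ⟨v * gen E i, ⟨i, rfl⟩, SemidirectProduct.inl (v * gen E i * v⁻¹), ⟨v, i, rfl⟩,
        ?_, ?_⟩
      · rw [sep_iff, SemidirectProduct.left_inl, n_edge hn]
      · rw [sep_iff, SemidirectProduct.left_inl, n_trans hn, ← hl2, wprod_cons, hn.cons, hn.self]
        have h1 : gen E i * gen E i * gen E i = gen E i := by rw [gen_mul_gen, one_mul]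
        rw [h1]
        rcases zmod_cases (n (wprod E l)⁻¹ (gen E i)) with h2 | h2
        · rw [h2, add_zero]
        · exfalso
          have h3 : n (wprod E l)⁻¹ (gen E i) ≠ 0 := by
            rw [h2]
            decide
          have h4 := hn.wlen_lt h3
          rw [← wprod_cons, hl2, ← hl1] at h4
          have h5 := wlen_le (E := E) l
          rw [List.length_cons] at h4
          omega

theorem rightAngled (hn : IsCoc n) (hA : ActsOn A E) :
    IsRightAngled (cadj E) (refl hA) (cside hA n) where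
  toPre := pre hn hA
  cross := by
    apply cross_of_quad (pre hn hA)
    rintro v _ _ w ⟨i, rfl⟩ ⟨j, rfl⟩ _ ⟨u, k, rfl⟩ _ ⟨u', k', rfl⟩ hne h1 h2 h3 h4
    rw [sep_iff, SemidirectProduct.left_inl, n_edge hn] at h1 h2
    rw [h1] at hne h3 ⊢
    rw [h2] at hne h4 ⊢
    rw [sep_iff, SemidirectProduct.left_inl, n_trans hn] at h3 h4
    have hij : i ≠ j := by
      rintro rfl
      exact hne rfl
    have hadj : E.Adj i j := hn.descents hij (by rw [h3]; decide) (by rw [h4]; decide)
    have hc := gen_comm hadj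
    rw [← map_mul, ← map_mul]
    congr 1
    calc v * gen E i * v⁻¹ * (v * gen E j * v⁻¹) = v * (gen E i * gen E j) * v⁻¹ := by group
      _ = v * (gen E j * gen E i) * v⁻¹ := by rw [hc]
      _ = _ := by group
  free := by
    intro g hg v hv
    have hr : ∃ t : RACG E, g = SemidirectProduct.inl t := by
      have hle : Subgroup.closure (refl hA) ≤
          (SemidirectProduct.inl : RACG E →* WA hA).range := by
        rw [Subgroup.closure_le]
        rintro _ ⟨u, i, rfl⟩
        exact ⟨_, rfl⟩
      obtain ⟨t, ht⟩ := hle hg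
      exact ⟨t, ht.symm⟩
    obtain ⟨t, rfl⟩ := hr
    rw [inl_smul] at hv
    have : t = 1 := by
      have := congrArg (fun x => x * v⁻¹) hv
      simpa using this
    rw [this, map_one]

theorem stab_finite (hA : ActsOn A E) [Finite A] (v w : RACG E) :
    {g : WA hA | g • v = w}.Finite := by
  refine Set.Finite.subset (Set.finite_range
    (fun a : A => (⟨w * (phi hA a v)⁻¹, a⟩ : WA hA))) ?_
  rintro g hg
  refine ⟨g.right, ?_⟩
  have h : g.left * phi hA g.right v = w := hg
  apply SemidirectProduct.ext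
  · change w * (phi hA g.right v)⁻¹ = g.left
    rw [← h]
    group
  · rfl

theorem main (hA : ActsOn A E) [Finite A] (H G : Subgroup (WA hA)) (hHG : H ≤ G)
    (C : Set (RACG E)) (hne : C.Nonempty) (hC : GeodConvex C)
    (hH : ∀ h ∈ H, ∀ c ∈ C, h • c ∈ C)
    (hco : ∃ F : Set (RACG E), F.Finite ∧ ∀ c ∈ C, ∃ h ∈ H, h • c ∈ F) :
    IsVirtualRetract H G := by
  obtain ⟨n, hn⟩ := exists_coc E
  obtain ⟨c0, hc0⟩ := hne
  obtain ⟨F, hF, hHF⟩ := hco
  have hconv : IsConvex (cadj E) (refl hA) (cside hA n) C := by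
    rintro c hc c' hc' _ ⟨i, rfl⟩ ⟨r, ⟨u, j, rfl⟩, h1, h2⟩
    apply hC c hc c' hc'
    rw [sep_iff, SemidirectProduct.left_inl, n_edge hn] at h1
    rw [h1, sep_iff, SemidirectProduct.left_inl, n_trans hn] at h2
    have h3 := hn.wlen_lt (w := c⁻¹ * c') (t := gen E i) (by rw [h2]; decide)
    have h4 : c⁻¹ * (c * gen E i) = gen E i := by group
    have h5 : (c * gen E i)⁻¹ * c' = gen E i * (c⁻¹ * c') := by
      rw [mul_inv_rev, gen_inv, mul_assoc]
    rw [h4, h5]
    have h6 : wlen (gen E i) ≤ 1 := by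
      have := wlen_le (E := E) [i]
      rwa [wprod_singleton] at this
    omega
  exact virtualRetract (rightAngled hn hA) hconv hc0 H G hHG hH F hF hHF (stab_finite hA)

end Pool.Agent.H989R3.VR
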