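import Mathlib
import Pool.Agent.H989R3.VR.Inst

set_option autoImplicit false

namespace Pool.Agent.H989R3.VR

variable {S : Type} {E : SimpleGraph S} {A : Type} [Group A] [MulAction A S]

theorem smul_eq {G : Type} [Group G] [MulAction G (RACG E)] (hA : ActsOn A E) (π : G →* A)
    (hc : ∀ (g : G) (v : RACG E) (i : S), g • (v * gen E i) = (g • v) * gen E (π g • i))
    (g : G) (v : RACG E) : g • v = (g • (1 : RACG E)) * actHom hA (π g) v := by
  obtain ⟨l, rfl⟩ := exists_word v
  induction l using List.reverseRecOn with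
  | nil =>
    have : wprod E ([] : List S) = 1 := by simp [wprod]
    rw [this, map_one, mul_one]
  | append_singleton l i ih =>
    rw [wprod_append, wprod_singleton, hc, ih, map_mul, actHom_gen, mul_assoc]

theorem final {G : Type} [Group G] [MulAction G (RACG E)] [Finite A] (hA : ActsOn A E)
    (π : G →* A)
    (hc : ∀ (g : G) (v : RACG E) (i : S), g • (v * gen E i) = (g • v) * gen E (π g • i))
    (hinj : ∀ g : G, π g = 1 → (∀ v : RACG E, g • v = v) → g = 1)
    (H : Subgroup G) (C : Set (RACG E)) (hne : C.Nonempty) (hC : GeodConvex C)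
    (hH : ∀ h ∈ H, ∀ c ∈ C, h • c ∈ C)
    (hco : ∃ F : Set (RACG E), F.Finite ∧ ∀ c ∈ C, ∃ h ∈ H, h • c ∈ F) :
    ∃ K : Subgroup G, K.index ≠ 0 ∧ ∃ hHK : H ≤ K, ∃ ρ : K →* H,
      ∀ x : H, ρ ⟨x.1, hHK x.2⟩ = x := by
  let θ : G →* WA hA :=
    { toFun := fun g => ⟨g • (1 : RACG E), π g⟩
      map_one' := by
        apply SemidirectProduct.ext
        · change (1 : G) • (1 : RACG E) = 1
          rw [one_smul]
        · exact map_one π
      map_mul' := by
        intro g g'
        apply SemidirectProduct.ext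
        · change (g * g') • (1 : RACG E) = (g • (1 : RACG E)) * actHom hA (π g) (g' • 1)
          rw [mul_smul, ← smul_eq hA π hc]
        · exact map_mul π g g' }
  have hθ : ∀ (g : G) (v : RACG E), θ g • v = g • v := by
    intro g v
    rw [smul_eq hA π hc]
    rfl
  have hθinj : Function.Injective θ := by
    rw [injective_iff_map_eq_one]
    intro g hg
    apply hinj g
    · exact congrArg SemidirectProduct.right hg
    · intro v
      rw [← hθ, hg, one_smul]
  obtain ⟨K', hK'G, hidx, hHK', ρ', hρ'⟩ := main hA (H.map θ) θ.range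
    (by rintro _ ⟨h, _, rfl⟩; exact ⟨h, rfl⟩) C hne hC
    (by
      rintro _ ⟨h, hh, rfl⟩ c hc
      rw [hθ]
      exact hH h hh c hc)
    (by
      obtain ⟨F, hF, hHF⟩ := hco
      refine ⟨F, hF, ?_⟩
      intro c hc
      obtain ⟨h, hh, hhc⟩ := hHF c hc
      exact ⟨θ h, ⟨h, hh, rfl⟩, by rwa [hθ]⟩)
  have hmem : ∀ k : K'.comap θ, θ k ∈ K' := fun k => k.2
  -- the inverse of `θ` on `H`
  have hback : ∀ y : (H.map θ : Subgroup (WA hA)), ∃ x : H, θ x = y := by
    rintro ⟨_, h, hh, rfl⟩
    exact ⟨⟨h, hh⟩, rfl⟩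
  choose b hb using hback
  let bh : (H.map θ : Subgroup (WA hA)) →* H :=
    { toFun := b
      map_one' := by
        apply Subtype.ext
        apply hθinj
        rw [hb]
        simp
      map_mul' := by
        intro x y
        apply Subtype.ext
        apply hθinj
        rw [hb]
        simp [hb] }
  refine ⟨K'.comap θ, ?_, ?_, ?_, ?_⟩
  · rw [Subgroup.index_comap]
    exact hidx
  · intro h hh
    exact hHK' ⟨h, hh, rfl⟩
  · exact (bh.comp ρ').comp
      { toFun := fun k => (⟨θ k, hmem k⟩ : K')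
        map_one' := Subtype.ext (by simp)
        map_mul' := fun x y => Subtype.ext (by simp) }
  · rintro ⟨x, hx⟩
    apply Subtype.ext
    apply hθinj
    change θ (b (ρ' ⟨θ x, _⟩)) = θ x
    rw [hb]
    have := hρ' ⟨θ x, ⟨x, hx, rfl⟩⟩
    exact congrArg Subtype.val this

end Pool.Agent.H989R3.VR
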