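import Mathlib
import Pool.Agent.H989R3.VR.Trans

set_option autoImplicit false

namespace Pool.Agent.H989R3.VR

section abstract

variable {Γ V : Type} [Group Γ] [MulAction Γ V]
  {adj : V → V → Prop} {R : Set Γ} {side : Γ → V → Prop}

/-- an edge of the wall `r` -/
theorem exists_edge' (h : Pre adj R side) {r : Γ} (n : ℕ) : ∀ (a c : V),
    mu R side a c ≤ n → Sep side r a c → r ∈ R →
      ∃ x y, adj x y ∧ Sep side r x y ∧ ¬ Sep side r a x := by
  induction n with
  | zero =>
    intro a c hn hs hr
    exfalso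
    have h1 : mu R side a c = 0 := by omega
    unfold mu at h1
    rw [Set.ncard_eq_zero (h.finite a c)] at h1
    have : r ∈ ({r | r ∈ R ∧ Sep side r a c} : Set Γ) := ⟨hr, hs⟩
    rw [h1] at this
    exact this
  | succ n ih =>
    intro a c hn hs hr
    have hac : a ≠ c := by
      rintro rfl
      exact not_sep_self hs
    obtain ⟨x, hx, q, hq, hq1, hq2⟩ := h.geod a c hac
    obtain ⟨r0, _, _, _, hu⟩ := h.edge a x hx
    by_cases hqr : q = r
    · subst hqr
      exact ⟨a, x, hx, hq1, not_sep_self⟩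
    · have h1 := mu_lt h hx hq hq1 hq2
      have h2 : ¬ Sep side r a x := by
        intro h3
        exact hqr ((hu q hq hq1).trans (hu r hr h3).symm)
      obtain ⟨y, z, hyz, h4, h5⟩ := ih x c (by omega) ((sep_of h2).mp hs) hr
      exact ⟨y, z, hyz, h4, fun h' => h5 ((sep_of h2).mp h')⟩

theorem common_step (h : IsRightAngled adj R side) {m v w : V} {t : Γ} (ht : t ∈ R)
    (h1 : Sep side t m v) (h2 : Sep side t m w) :
    ∃ x, adj m x ∧ ∃ q ∈ R, Sep side q m x ∧ Sep side q m v ∧ Sep side q m w := by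
  classical
  have hne : ∃ k, ∃ a a' : V, adj a a' ∧ Sep side t a a' ∧ ¬ Sep side t m a ∧
      mu R side m a = k := by
    obtain ⟨x, y, hxy, hs, h3⟩ := exists_edge' h.toPre _ m v le_rfl h1 ht
    exact ⟨_, x, y, hxy, hs, h3, rfl⟩
  obtain ⟨a, a', haa, hs, hma, hk⟩ := Nat.find_spec hne
  have hmin : ∀ b b' : V, adj b b' → Sep side t b b' → ¬ Sep side t m b →
      mu R side m a ≤ mu R side m b := by
    intro b b' hb1 hb2 hb3
    rw [hk]
    exact Nat.find_min' hne ⟨b, b', hb1, hb2, hb3, rfl⟩
  by_cases hma' : m = a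
  · subst hma'
    exact ⟨a', haa, t, ht, hs, h1, h2⟩
  · obtain ⟨x, hx, q, hq, hq1, hq2⟩ := h.geod m a hma'
    have hqt : q ≠ t := by
      rintro rfl
      exact hma hq2
    have hncomm : q * t ≠ t * q := by
      intro hc
      have h3 := mu_descent h.toPre _ m a q hq le_rfl hq2
      have h4 := hmin (q • a) (q • a') (h.adj_smul q a a' haa) (by
        have h5 := h.sep_conj t ht q a a'
        have h6 : q * t * q⁻¹ = t := by rw [hc]; group
        rw [h6] at h5
        exact h5.mpr hs) (by
        intro h5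
        -- `q` preserves the sides of `t`
        have h6 := h.sep_conj t ht q m a
        have h7 : q * t * q⁻¹ = t := by rw [hc]; group
        rw [h7] at h6
        have h8 : ¬ Sep side t (q • m) (q • a) := fun h' => hma (h6.mp h')
        obtain ⟨q0, _, _, hq0, hu⟩ := h.edge m x hx
        have h9 : q = q0 := hu q hq hq1
        subst h9
        have h10 : ¬ Sep side t m x := fun h' => hqt (hu t ht h').symm
        rw [hq0] at h8
        exact h8 ((sep_of h10).mp h5))
      omega
    obtain ⟨t0, _, _, _, hut⟩ := h.edge a a' haa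
    have htt : t = t0 := hut t ht hs
    subst htt
    have hqa' : ¬ Sep side q a a' := fun h' => hqt (hut q hq h')
    have hqma' : Sep side q m a' := ((sep_of hqa').mp hq2.symm).symm
    have htma' : Sep side t m a' := (sep_of hma).mpr hs
    have key : ∀ z, Sep side t m z → Sep side q m z := by
      intro z hz
      by_contra hqz
      exact hncomm (h.cross q hq t ht m a z a' hq2 hma hqz hz hqma' htma')
    exact ⟨x, hx, q, hq, hq1, key v h1, key w h2⟩

theorem exists_median (h : IsRightAngled adj R side) (n : ℕ) : ∀ (y v w : V),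
    mu R side y v ≤ n → ∃ m, mu R side y m + mu R side m v ≤ mu R side y v ∧
      mu R side y m + mu R side m w ≤ mu R side y w ∧
        ∀ t ∈ R, Sep side t m v → ¬ Sep side t m w := by
  have h0 : ∀ y : V, mu R side y y = 0 := by
    intro y
    unfold mu
    rw [Set.ncard_eq_zero (h.finite y y)]
    ext t
    simp only [Set.mem_ofPred_eq, Set.mem_empty_iff_false, iff_false, not_and]
    intro _
    exact not_sep_self
  induction n with
  | zero =>
    intro y v w hn
    refine ⟨y, by rw [h0]; omega, by rw [h0]; omega, ?_⟩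
    intro t ht h1
    exfalso
    have h2 : mu R side y v = 0 := by omega
    unfold mu at h2
    rw [Set.ncard_eq_zero (h.finite y v)] at h2
    have : t ∈ ({r | r ∈ R ∧ Sep side r y v} : Set Γ) := ⟨ht, h1⟩
    rw [h2] at this
    exact this
  | succ n ih =>
    intro y v w hn
    by_cases hex : ∃ t ∈ R, Sep side t y v ∧ Sep side t y w
    · obtain ⟨t, ht, h1, h2⟩ := hex
      obtain ⟨x, hx, q, hq, hq1, hq2, hq3⟩ := common_step h ht h1 h2
      have h3 := mu_lt h.toPre hx hq hq1 hq2
      have h4 := mu_lt h.toPre hx hq hq1 hq3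
      obtain ⟨m, hm1, hm2, hm3⟩ := ih x v w (by omega)
      have h5 := mu_le (w := m) h.toPre hx
      exact ⟨m, by omega, by omega, hm3⟩
    · refine ⟨y, by rw [h0]; omega, by rw [h0]; omega, ?_⟩
      intro t ht h1 h2
      exact hex ⟨t, ht, h1, h2⟩

/-- the hull of a set of vertices -/
def hull (R : Set Γ) (side : Γ → V → Prop) (Y : Set V) : Set V :=
  {v | ∀ r ∈ R, ∃ y ∈ Y, ¬ Sep side r v y}

theorem hull_convex (h : Pre adj R side) (Y : Set V) :
    IsConvex adj R side (hull R side Y) := by
  rintro c hc c' hc' x hx ⟨r, hr, h1, h2⟩ t ht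
  by_cases htc : Sep side t c x
  · obtain ⟨r0, _, _, _, hu⟩ := h.edge c x hx
    have : t = r := (hu t ht htc).trans (hu r hr h1).symm
    subst this
    obtain ⟨y, hy, hcy⟩ := hc' t ht
    refine ⟨y, hy, ?_⟩
    intro h3
    apply hcy
    have h4 : ¬ Sep side t x c' := (sep_of' htc).mp h2
    exact (sep_of h4).mp h3
  · obtain ⟨y, hy, hcy⟩ := hc t ht
    exact ⟨y, hy, fun h3 => hcy ((sep_of htc).mpr h3)⟩

/-- every wall separating a vertex of the hull from a nearest point of `Y` meets the ball of
radius `κ` around that point -/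
theorem wall_near (h : IsRightAngled adj R side) (Y : Set V) (κ : ℕ)
    (hY : ∀ y ∈ Y, ∀ y' ∈ Y, ∀ z, mu R side y z + mu R side z y' ≤ mu R side y y' →
      ∃ y'' ∈ Y, mu R side z y'' ≤ κ)
    (hsymm : ∀ a b : V, mu R side a b = mu R side b a)
    (htri : ∀ a b c : V, mu R side a c ≤ mu R side a b + mu R side b c)
    {v y : V} (hv : v ∈ hull R side Y) (hy : y ∈ Y)
    (hmin : ∀ y' ∈ Y, mu R side y v ≤ mu R side y' v) {r : Γ} (hr : r ∈ R)
    (hs : Sep side r y v) : ∃ m, mu R side y m ≤ κ ∧ Sep side r y m := by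
  obtain ⟨y', hy', hvy'⟩ := hv r hr
  obtain ⟨m, hm1, hm2, hm3⟩ := exists_median h _ y v y' le_rfl
  obtain ⟨y'', hy'', hmy⟩ := hY y hy y' hy' m hm2
  refine ⟨m, ?_, ?_⟩
  · have h1 := hmin y'' hy''
    have h2 := htri y'' m v
    rw [hsymm y'' m] at h2
    omega
  · by_contra hym
    have h1 : Sep side r m v := (sep_of hym).mp hs
    apply hm3 r hr h1
    by_contra h2
    apply hvy'
    have h3 : Sep side r v m := h1.symm
    exact ((sep_of h2).mp h3.symm).symm

end abstract

end Pool.Agent.H989R3.VR
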