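import Mathlib
import Pool.Agent.H989R3.VR.Median

set_option autoImplicit false

namespace Pool.Agent.H989R3.VR

variable {S : Type} {E : SimpleGraph S} {A : Type} [Group A] [MulAction A S]
  {n : RACG E → RACG E → ZMod 2}

theorem wlen_mul_le (a b : RACG E) : wlen (a * b) ≤ wlen a + wlen b := by
  obtain ⟨l, hl, rfl⟩ := wlen_spec a
  obtain ⟨l', hl', rfl⟩ := wlen_spec b
  rw [← hl, ← hl', ← wprod_append, ← List.length_append]
  exact wlen_le _

theorem wlen_inv_le (a : RACG E) : wlen a⁻¹ ≤ wlen a := by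
  obtain ⟨l, hl, rfl⟩ := wlen_spec a
  rw [← hl, ← wprod_reverse, ← List.length_reverse]
  exact wlen_le _

theorem wlen_inv (a : RACG E) : wlen a⁻¹ = wlen a := by
  apply le_antisymm (wlen_inv_le a)
  have := wlen_inv_le a⁻¹
  rwa [inv_inv] at this

theorem wlen_gen_le (i : S) : wlen (gen E i) ≤ 1 := by
  have := wlen_le (E := E) [i]
  rwa [wprod_singleton] at this

theorem mu_self {Γ V : Type} [Group Γ] [MulAction Γ V]
    {adj : V → V → Prop} {R : Set Γ} {side : Γ → V → Prop} (h : Pre adj R side) (y : V) :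
    mu R side y y = 0 := by
  unfold mu
  rw [Set.ncard_eq_zero (h.finite y y)]
  ext t
  simp only [Set.mem_ofPred_eq, Set.mem_empty_iff_false, iff_false, not_and]
  intro _
  exact not_sep_self

theorem mu_le_word (hn : IsCoc n) (hA : ActsOn A E) (l : List S) : ∀ v : RACG E,
    mu (refl hA) (cside hA n) v (v * wprod E l) ≤ l.length := by
  induction l with
  | nil =>
    intro v
    have : wprod E ([] : List S) = 1 := by simp [wprod]
    rw [this, mul_one, mu_self (pre hn hA)]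
    exact Nat.zero_le _
  | cons i l ih =>
    intro v
    rw [wprod_cons, ← mul_assoc, List.length_cons]
    have h1 := mu_le (w := v * gen E i * wprod E l) (pre hn hA) (⟨i, rfl⟩ : cadj E v (v * gen E i))
    have h2 := ih (v * gen E i)
    omega

theorem wlen_le_mu (hn : IsCoc n) (hA : ActsOn A E) (k : ℕ) : ∀ v w : RACG E,
    mu (refl hA) (cside hA n) v w ≤ k → wlen (v⁻¹ * w) ≤ mu (refl hA) (cside hA n) v w := by
  induction k with
  | zero =>
    intro v w hk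
    by_cases hvw : v = w
    · subst hvw
      rw [inv_mul_cancel]
      have := wlen_le (E := E) []
      have h1 : wprod E ([] : List S) = 1 := by simp [wprod]
      rw [h1, List.length_nil] at this
      omega
    · exfalso
      obtain ⟨x, hx, r, hr, h1, h2⟩ := (pre hn hA).geod v w hvw
      have := mu_lt (pre hn hA) hx hr h1 h2
      omega
  | succ k ih =>
    intro v w hk
    by_cases hvw : v = w
    · subst hvw
      rw [inv_mul_cancel]
      have := wlen_le (E := E) []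
      have h1 : wprod E ([] : List S) = 1 := by simp [wprod]
      rw [h1, List.length_nil] at this
      omega
    · obtain ⟨_, ⟨i, rfl⟩, r, hr, h1, h2⟩ := (pre hn hA).geod v w hvw
      have h3 := mu_lt (pre hn hA) ⟨i, rfl⟩ hr h1 h2
      have h4 := ih (v * gen E i) w (by omega)
      have h5 : v⁻¹ * w = gen E i * ((v * gen E i)⁻¹ * w) := by group
      have h6 := wlen_mul_le (gen E i) ((v * gen E i)⁻¹ * w)
      rw [← h5] at h6
      have h7 := wlen_gen_le (E := E) i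
      omega

theorem mu_eq (hn : IsCoc n) (hA : ActsOn A E) (v w : RACG E) :
    mu (refl hA) (cside hA n) v w = wlen (v⁻¹ * w) := by
  apply le_antisymm
  · obtain ⟨l, hl, hw⟩ := wlen_spec (v⁻¹ * w)
    have h1 := mu_le_word hn hA l v
    rw [hw, hl] at h1
    have h2 : v * (v⁻¹ * w) = w := by group
    rwa [h2] at h1
  · exact wlen_le_mu hn hA _ v w le_rfl

theorem ball_finite [Finite S] (k : ℕ) : {u : RACG E | wlen u ≤ k}.Finite := by
  refine Set.Finite.subset ((List.finite_length_le S k).image (wprod E)) ?_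
  intro u hu
  obtain ⟨l, hl, rfl⟩ := wlen_spec u
  exact ⟨l, by rw [Set.mem_setOf_eq, hl]; exact hu, rfl⟩

theorem hull_geodConvex (hn : IsCoc n) (hA : ActsOn A E) (Y : Set (RACG E)) :
    GeodConvex (hull (refl hA) (cside hA n) Y) := by
  intro c hc c' hc' v hv r hr
  rw [← mu_eq hn hA, ← mu_eq hn hA, ← mu_eq hn hA] at hv
  have hnot : ¬ (Sep (cside hA n) r c v ∧ Sep (cside hA n) r v c') := by
    rintro ⟨h1, h2⟩
    have f1 := (pre hn hA).finite c v
    have f2 := (pre hn hA).finite v c'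
    have hsub : {t | t ∈ refl hA ∧ Sep (cside hA n) t c c'} ⊆
        ({t | t ∈ refl hA ∧ Sep (cside hA n) t c v} ∪
          {t | t ∈ refl hA ∧ Sep (cside hA n) t v c'}) \ {r} := by
      rintro t ⟨ht, hs⟩
      refine ⟨?_, ?_⟩
      · by_cases h3 : Sep (cside hA n) t c v
        · left
          exact ⟨ht, h3⟩
        · right
          exact ⟨ht, (sep_of h3).mp hs⟩
      · rintro rfl
        exact (sep_of' h1).mp hs h2
    have h3 := Set.ncard_le_ncard hsub ((f1.union f2).subset Set.diff_subset)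
    have h4 := Set.ncard_diff_singleton_lt_of_mem
      (s := {t | t ∈ refl hA ∧ Sep (cside hA n) t c v} ∪
          {t | t ∈ refl hA ∧ Sep (cside hA n) t v c'}) (a := r) (Or.inl ⟨hr, h1⟩) (f1.union f2)
    have h5 := Set.ncard_union_le {t | t ∈ refl hA ∧ Sep (cside hA n) t c v}
          {t | t ∈ refl hA ∧ Sep (cside hA n) t v c'}
    unfold mu at hv
    omega
  by_cases h1 : Sep (cside hA n) r c v
  · have h2 : ¬ Sep (cside hA n) r v c' := fun h => hnot ⟨h1, h⟩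
    obtain ⟨y, hy, hcy⟩ := hc' r hr
    exact ⟨y, hy, fun h => hcy ((sep_of h2).mp h)⟩
  · obtain ⟨y, hy, hcy⟩ := hc r hr
    exact ⟨y, hy, fun h => hcy ((sep_of h1).mpr h)⟩

/-- the bound on the distance from the hull to the orbit -/
theorem hull_near [Finite S] (hn : IsCoc n) (hA : ActsOn A E) (Y : Set (RACG E)) (κ : ℕ)
    (hY : ∀ y ∈ Y, ∀ y' ∈ Y, ∀ z, wlen (y⁻¹ * z) + wlen (z⁻¹ * y') ≤ wlen (y⁻¹ * y') →
      ∃ y'' ∈ Y, wlen (z⁻¹ * y'') ≤ κ) :
    ∃ B : ℕ, ∀ v ∈ hull (refl hA) (cside hA n) Y, Y.Nonempty → ∃ y ∈ Y, wlen (y⁻¹ * v) ≤ B := by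
  classical
  have hD : {u : RACG E | wlen u ≤ κ}.Finite := ball_finite κ
  refine ⟨hD.toFinset.card * κ, ?_⟩
  intro v hv hne
  obtain ⟨y0, hy0⟩ := hne
  have hex : ∃ k, ∃ y ∈ Y, mu (refl hA) (cside hA n) y v = k := ⟨_, y0, hy0, rfl⟩
  obtain ⟨y, hy, hk⟩ := Nat.find_spec hex
  have hmin : ∀ y' ∈ Y, mu (refl hA) (cside hA n) y v ≤ mu (refl hA) (cside hA n) y' v := by
    intro y' hy'
    rw [hk]
    exact Nat.find_min' hex ⟨y', hy', rfl⟩
  refine ⟨y, hy, ?_⟩
  have hsymm : ∀ a b : RACG E, mu (refl hA) (cside hA n) a b = mu (refl hA) (cside hA n) b a := by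
    intro a b
    rw [mu_eq hn hA, mu_eq hn hA, ← wlen_inv (a⁻¹ * b)]
    congr 1
    group
  have htri : ∀ a b c : RACG E, mu (refl hA) (cside hA n) a c ≤
      mu (refl hA) (cside hA n) a b + mu (refl hA) (cside hA n) b c := by
    intro a b c
    rw [mu_eq hn hA, mu_eq hn hA, mu_eq hn hA]
    have h1 : a⁻¹ * c = (a⁻¹ * b) * (b⁻¹ * c) := by group
    rw [h1]
    exact wlen_mul_le _ _
  have hY' : ∀ y ∈ Y, ∀ y' ∈ Y, ∀ z, mu (refl hA) (cside hA n) y z +
      mu (refl hA) (cside hA n) z y' ≤ mu (refl hA) (cside hA n) y y' →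
      ∃ y'' ∈ Y, mu (refl hA) (cside hA n) z y'' ≤ κ := by
    intro y hy y' hy' z hz
    rw [mu_eq hn hA, mu_eq hn hA, mu_eq hn hA] at hz
    obtain ⟨y'', hy'', h1⟩ := hY y hy y' hy' z hz
    exact ⟨y'', hy'', by rw [mu_eq hn hA]; exact h1⟩
  rw [← mu_eq hn hA]
  have hsub : ((pre hn hA).finite y v).toFinset ⊆
      hD.toFinset.biUnion (fun u => ((pre hn hA).finite y (y * u)).toFinset) := by
    intro r hr
    rw [Set.Finite.mem_toFinset] at hr
    obtain ⟨hr, hs⟩ := hr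
    obtain ⟨m, hm, hms⟩ := wall_near (rightAngled hn hA) Y κ hY' hsymm htri hv hy hmin hr hs
    rw [Finset.mem_biUnion]
    refine ⟨y⁻¹ * m, ?_, ?_⟩
    · rw [Set.Finite.mem_toFinset]
      change wlen (y⁻¹ * m) ≤ κ
      rw [← mu_eq hn hA]
      exact hm
    · rw [Set.Finite.mem_toFinset]
      have : y * (y⁻¹ * m) = m := by group
      rw [this]
      exact ⟨hr, hms⟩
  have h1 : mu (refl hA) (cside hA n) y v = ((pre hn hA).finite y v).toFinset.card := by
    unfold mu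
    exact Set.ncard_eq_toFinset_card _ _
  rw [h1]
  refine le_trans (Finset.card_le_card hsub) ?_
  refine Finset.card_biUnion_le_card_mul _ _ _ ?_
  intro u hu
  rw [Set.Finite.mem_toFinset] at hu
  rw [← Set.ncard_eq_toFinset_card _ _]
  change mu (refl hA) (cside hA n) y (y * u) ≤ κ
  rw [mu_eq hn hA]
  have : y⁻¹ * (y * u) = u := by group
  rw [this]
  exact hu

theorem finalQ {G : Type} [Group G] [MulAction G (RACG E)] [Finite A] [Finite S]
    (hA : ActsOn A E) (π : G →* A)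
    (hc : ∀ (g : G) (v : RACG E) (i : S), g • (v * gen E i) = (g • v) * gen E (π g • i))
    (hinj : ∀ g : G, π g = 1 → (∀ v : RACG E, g • v = v) → g = 1)
    (H : Subgroup G) (v0 : RACG E) (κ : ℕ)
    (hq : ∀ h ∈ H, ∀ h' ∈ H, ∀ z : RACG E,
      wlen ((h • v0)⁻¹ * z) + wlen (z⁻¹ * (h' • v0)) ≤ wlen ((h • v0)⁻¹ * (h' • v0)) →
        ∃ h'' ∈ H, wlen (z⁻¹ * (h'' • v0)) ≤ κ) :
    ∃ K : Subgroup G, K.index ≠ 0 ∧ ∃ hHK : H ≤ K, ∃ ρ : K →* H,
      ∀ x : H, ρ ⟨x.1, hHK x.2⟩ = x := by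
  obtain ⟨n, hn⟩ := exists_coc E
  set Y : Set (RACG E) := {y | ∃ h ∈ H, h • v0 = y} with hYdef
  have hv0 : v0 ∈ Y := ⟨1, one_mem _, one_smul _ _⟩
  obtain ⟨B, hB⟩ := hull_near hn hA Y κ (by
    rintro _ ⟨h, hh, rfl⟩ _ ⟨h', hh', rfl⟩ z hz
    obtain ⟨h'', hh'', h1⟩ := hq h hh h' hh' z hz
    exact ⟨_, ⟨h'', hh'', rfl⟩, h1⟩)
  have hθ : ∀ (g : G) (v : RACG E), (⟨g • (1 : RACG E), π g⟩ : WA hA) • v = g • v := by
    intro g v
    exact (smul_eq hA π hc g v).symm
  refine final hA π hc hinj H (hull (refl hA) (cside hA n) Y) ⟨v0, ?_⟩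
    (hull_geodConvex hn hA Y) ?_ ?_
  · intro r _
    exact ⟨v0, hv0, not_sep_self⟩
  · intro h hh v hv r hr
    set g : WA hA := ⟨h • (1 : RACG E), π h⟩ with hg
    have hr' : g⁻¹ * r * g⁻¹⁻¹ ∈ refl hA := (pre hn hA).conj r hr g⁻¹
    obtain ⟨y, ⟨k, hk, rfl⟩, hvy⟩ := hv _ hr'
    refine ⟨h • k • v0, ⟨h * k, mul_mem hh hk, mul_smul _ _ _⟩, ?_⟩
    intro h1
    apply hvy
    have h2 := (pre hn hA).sep_conj _ hr' g v (k • v0)
    rw [hθ, hθ] at h2
    have h3 : g * (g⁻¹ * r * g⁻¹⁻¹) * g⁻¹ = r := by group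
    rw [h3] at h2
    exact h2.mp h1
  · refine ⟨(fun u => v0 * u) '' {u : RACG E | wlen u ≤ B}, (ball_finite B).image _, ?_⟩
    intro v hv
    obtain ⟨_, ⟨h, hh, rfl⟩, h1⟩ := hB v hv ⟨v0, hv0⟩
    refine ⟨h⁻¹, inv_mem hh, v0⁻¹ * (h⁻¹ • v), ?_, by group⟩
    change wlen (v0⁻¹ * (h⁻¹ • v)) ≤ B
    refine le_trans ?_ h1
    rw [← mu_eq hn hA, ← mu_eq hn hA]
    have h2 := mu_smul (pre hn hA) (⟨h⁻¹ • (1 : RACG E), π h⁻¹⟩ : WA hA) (h • v0) v
    rw [hθ, hθ, inv_smul_smul] at h2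
    exact h2

end Pool.Agent.H989R3.VR
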